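import Mathlib

/-! # Project EWC: a lower bound for the Gamma function on vertical lines

`|Γ(x + iy)| ≥ Γ(x) exp (- π |y| / 2)` for `x ≥ 1/2`. -/

set_option autoImplicit false

open Filter Topology Finset

namespace Pool.Agent.Q166.EW

lemma fac_le {x y : ℝ} (hx : 1 / 2 ≤ x) (j : ℕ) :
    ‖((x : ℂ) + y * Complex.I + j)‖ * ‖((1 / 2 : ℂ) + j)‖ ≤
      ‖((1 / 2 : ℂ) + y * Complex.I + j)‖ * ‖((x : ℂ) + j)‖ := by
  have hj : (0 : ℝ) ≤ j := Nat.cast_nonneg j
  have key : ∀ (u v : ℝ), ‖((u : ℂ) + v * Complex.I)‖ ^ 2 = u ^ 2 + v ^ 2 := by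
    intro u v
    rw [Complex.sq_norm, Complex.normSq_add_mul_I]
  have e1 : (x : ℂ) + y * Complex.I + j = ((x + j : ℝ) : ℂ) + y * Complex.I := by push_cast; ring
  have e2 : (1 / 2 : ℂ) + j = ((1 / 2 + j : ℝ) : ℂ) + (0 : ℝ) * Complex.I := by push_cast; ring
  have e3 : (1 / 2 : ℂ) + y * Complex.I + j = ((1 / 2 + j : ℝ) : ℂ) + y * Complex.I := by push_cast; ring
  have e4 : (x : ℂ) + j = ((x + j : ℝ) : ℂ) + (0 : ℝ) * Complex.I := by push_cast; ring
  rw [e1, e2, e3, e4]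
  refine le_of_sq_le_sq ?_ (by positivity)
  rw [mul_pow, mul_pow, key, key, key, key]
  have h1 : (1 / 2 + (j : ℝ)) ^ 2 ≤ (x + j) ^ 2 := pow_le_pow_left₀ (by positivity) (by linarith) 2
  nlinarith [mul_le_mul_of_nonneg_left h1 (sq_nonneg y)]

lemma gseq_le {x y : ℝ} (hx : 1 / 2 ≤ x) {n : ℕ} (hn : 0 < n) :
    ‖Complex.GammaSeq (1 / 2 + y * Complex.I) n‖ * ‖Complex.GammaSeq x n‖ ≤
      ‖Complex.GammaSeq (x + y * Complex.I) n‖ * ‖Complex.GammaSeq (1 / 2) n‖ := by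
  unfold Complex.GammaSeq
  simp only [norm_div, norm_mul, norm_prod, Complex.norm_natCast_cpow_of_pos hn, Complex.norm_natCast]
  have r1 : ((1 / 2 : ℂ) + y * Complex.I).re = 1 / 2 := by simp
  have r2 : ((x : ℂ) + y * Complex.I).re = x := by simp
  have r3 : ((x : ℂ)).re = x := by simp
  have r4 : (1 / 2 : ℂ).re = 1 / 2 := by simp
  rw [r1, r2, r3, r4]
  have hpos : ∀ (u v : ℝ), 0 < u → ∀ j : ℕ, 0 < ‖((u : ℂ) + v * Complex.I + j)‖ := by
    intro u v hu j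
    rw [norm_pos_iff]
    intro h
    have := congrArg Complex.re h
    simp at this
    have hj : (0 : ℝ) ≤ j := Nat.cast_nonneg j
    linarith
  have hx0 : 0 < x := by linarith
  have p1 : 0 < ∏ j ∈ range (n + 1), ‖((1 / 2 : ℂ) + y * Complex.I + j)‖ :=
    Finset.prod_pos fun j _ => by
      have := hpos (1 / 2) y (by norm_num) j
      simpa using this
  have p2 : 0 < ∏ j ∈ range (n + 1), ‖((x : ℂ) + y * Complex.I + j)‖ :=
    Finset.prod_pos fun j _ => hpos x y hx0 j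
  have p3 : 0 < ∏ j ∈ range (n + 1), ‖((x : ℂ) + j)‖ :=
    Finset.prod_pos fun j _ => by
      have := hpos x 0 hx0 j
      simpa using this
  have p4 : 0 < ∏ j ∈ range (n + 1), ‖((1 / 2 : ℂ) + j)‖ :=
    Finset.prod_pos fun j _ => by
      have := hpos (1 / 2) 0 (by norm_num) j
      simpa using this
  have hle : (∏ j ∈ range (n + 1), ‖((x : ℂ) + y * Complex.I + j)‖) * ∏ j ∈ range (n + 1), ‖((1 / 2 : ℂ) + j)‖ ≤
      (∏ j ∈ range (n + 1), ‖((1 / 2 : ℂ) + y * Complex.I + j)‖) * ∏ j ∈ range (n + 1), ‖((x : ℂ) + j)‖ := by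
    rw [← Finset.prod_mul_distrib, ← Finset.prod_mul_distrib]
    exact Finset.prod_le_prod (fun j _ => by positivity) fun j _ => fac_le hx j
  rw [div_mul_div_comm, div_mul_div_comm]
  have e : (n : ℝ) ^ (1 / 2 : ℝ) * (n.factorial : ℝ) * ((n : ℝ) ^ x * (n.factorial : ℝ)) =
      (n : ℝ) ^ x * (n.factorial : ℝ) * ((n : ℝ) ^ (1 / 2 : ℝ) * (n.factorial : ℝ)) := by ring
  rw [e]
  exact div_le_div_of_nonneg_left (by positivity) (by positivity) hle

lemma gam_le {x y : ℝ} (hx : 1 / 2 ≤ x) :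
    ‖Complex.Gamma (1 / 2 + y * Complex.I)‖ * ‖Complex.Gamma x‖ ≤
      ‖Complex.Gamma (x + y * Complex.I)‖ * ‖Complex.Gamma (1 / 2)‖ := by
  refine le_of_tendsto_of_tendsto
    (((Complex.GammaSeq_tendsto_Gamma _).norm).mul ((Complex.GammaSeq_tendsto_Gamma _).norm))
    (((Complex.GammaSeq_tendsto_Gamma _).norm).mul ((Complex.GammaSeq_tendsto_Gamma _).norm)) ?_
  filter_upwards [eventually_gt_atTop 0] with n hn
  exact gseq_le hx hn

lemma gam_half (y : ℝ) : ‖Complex.Gamma (1 / 2 + y * Complex.I)‖ ^ 2 = Real.pi / Real.cosh (Real.pi * y) := by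
  have h1 := Complex.Gamma_mul_Gamma_one_sub (1 / 2 + y * Complex.I)
  have h2 : (1 : ℂ) - (1 / 2 + y * Complex.I) = (starRingEnd ℂ) (1 / 2 + y * Complex.I) := by
    apply Complex.ext
    · simp
      norm_num
    · simp
  rw [h2, Complex.Gamma_conj] at h1
  have h3 : Complex.sin (Real.pi * (1 / 2 + y * Complex.I)) = ((Real.cosh (Real.pi * y) : ℝ) : ℂ) := by
    have e : (Real.pi : ℂ) * (1 / 2 + y * Complex.I) = Real.pi * y * Complex.I + Real.pi / 2 := by ring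
    rw [e, Complex.sin_add_pi_div_two, Complex.cos_mul_I]
    push_cast
    rfl
  rw [h3, Complex.mul_conj, Complex.normSq_eq_norm_sq] at h1
  exact_mod_cast h1

lemma cosh_le (y : ℝ) : Real.cosh y ≤ Real.exp |y| := by
  rw [← Real.cosh_abs, Real.cosh_eq]
  have h1 : Real.exp (-|y|) ≤ Real.exp |y| := Real.exp_le_exp.mpr (by linarith [abs_nonneg y])
  linarith

/-- `|Γ(x + iy)| ≥ Γ(x) exp (- π |y| / 2)` for `x ≥ 1/2` -/
theorem gam_low {x y : ℝ} (hx : 1 / 2 ≤ x) :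
    Real.Gamma x * Real.exp (-(Real.pi / 2 * |y|)) ≤ ‖Complex.Gamma (x + y * Complex.I)‖ := by
  have h1 := gam_le (y := y) hx
  have hx0 : 0 < x := by linarith
  have hG : 0 < Real.Gamma x := Real.Gamma_pos_of_pos hx0
  have hGx : ‖Complex.Gamma x‖ = Real.Gamma x := by
    rw [Complex.Gamma_ofReal, Complex.norm_real, Real.norm_of_nonneg hG.le]
  have h2 : ‖Complex.Gamma (1 / 2)‖ ^ 2 = Real.pi := by
    have := gam_half 0
    simpa using this
  have h3 := gam_half y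
  set A := ‖Complex.Gamma (1 / 2 + y * Complex.I)‖
  set B := ‖Complex.Gamma (1 / 2)‖
  set D := ‖Complex.Gamma (x + y * Complex.I)‖
  rw [hGx] at h1
  have hB : 0 ≤ B := norm_nonneg _
  have hA : 0 ≤ A := norm_nonneg _
  have hD : 0 ≤ D := norm_nonneg _
  refine le_of_sq_le_sq ?_ hD
  have h4 : (A * Real.Gamma x) ^ 2 ≤ (D * B) ^ 2 := pow_le_pow_left₀ (by positivity) h1 2
  rw [mul_pow, mul_pow, h3, h2] at h4
  have hc : 0 < Real.cosh (Real.pi * y) := Real.cosh_pos _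
  have h5 : Real.Gamma x ^ 2 / Real.cosh (Real.pi * y) ≤ D ^ 2 := by
    have hpi := Real.pi_pos
    have h6 : Real.pi * (Real.Gamma x ^ 2 / Real.cosh (Real.pi * y)) ≤ Real.pi * D ^ 2 := by
      calc Real.pi * (Real.Gamma x ^ 2 / Real.cosh (Real.pi * y)) =
          Real.pi / Real.cosh (Real.pi * y) * Real.Gamma x ^ 2 := by ring
        _ ≤ D ^ 2 * Real.pi := h4
        _ = Real.pi * D ^ 2 := by ring
    exact le_of_mul_le_mul_left h6 hpi
  refine le_trans ?_ h5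
  rw [mul_pow, div_eq_mul_inv (Real.Gamma x ^ 2)]
  refine mul_le_mul_of_nonneg_left ?_ (by positivity)
  have h7 := cosh_le (Real.pi * y)
  rw [abs_mul, abs_of_pos Real.pi_pos] at h7
  have e : Real.exp (-(Real.pi / 2 * |y|)) ^ 2 = (Real.exp (Real.pi * |y|))⁻¹ := by
    rw [← Real.exp_neg, ← Real.exp_nat_mul]
    congr 1
    push_cast
    ring
  rw [e]
  exact inv_anti₀ hc h7

end Pool.Agent.Q166.EW
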