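import Pool.Agent.Q286.EW.Stm
import Pool.Agent.Q166.EW.GamLow

/-! # Project EWC, job EW-CTR: lower bound on a line to the right -/

set_option autoImplicit false
set_option linter.unusedSectionVars false

open Complex Filter Topology Finset

namespace Pool.Agent.Q166.EW

open Pool.Agent.Q286.EW
open Pool.Agent.W169.HF H353.E Pool.Agent.W355.UN Pool.Agent.TH839.NA

/-- one gamma factor from below -/
lemma gamR_low (a : ℂ) (ha : -1 / 2 < a.re) {σ : ℝ} (hσ : 2 ≤ σ) : ∃ c : ℝ, 0 < c ∧ ∀ t : ℝ,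
    c * Real.exp (-(Real.pi / 4 * |t|)) ≤ ‖Gammaℝ (1 / 2 + σ + t * I + a)‖ := by
  set x : ℝ := (1 / 2 + σ + a.re) / 2 with hx
  have hx1 : 1 / 2 ≤ x := by rw [hx]; linarith
  have hx0 : 0 < x := by linarith
  have hG : 0 < Real.Gamma x := Real.Gamma_pos_of_pos hx0
  refine ⟨Real.pi ^ (-x) * (Real.Gamma x * Real.exp (-(Real.pi / 4 * |a.im|))), by
    have := Real.pi_pos
    positivity, fun t => ?_⟩
  have e : (1 / 2 + σ + t * I + a) / 2 = (x : ℂ) + ((t + a.im) / 2 : ℝ) * I := by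
    rw [hx]
    apply Complex.ext
    · simp
    · simp
  rw [Gammaℝ_def, norm_mul]
  have h1 : ‖(Real.pi : ℂ) ^ (-(1 / 2 + σ + t * I + a) / 2)‖ = Real.pi ^ (-x) := by
    rw [Complex.norm_cpow_eq_rpow_re_of_pos Real.pi_pos]
    congr 1
    have : (-(1 / 2 + σ + t * I + a) / 2 : ℂ) = -((1 / 2 + σ + t * I + a) / 2) := by ring
    rw [this, e]
    simp
  rw [h1, e, mul_assoc, mul_assoc]
  refine mul_le_mul_of_nonneg_left ?_ (by have := Real.pi_pos; positivity)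
  have h2 := gam_low (y := (t + a.im) / 2) hx1
  refine le_trans ?_ h2
  rw [← Real.exp_add]
  refine mul_le_mul_of_nonneg_left (Real.exp_le_exp.mpr ?_) hG.le
  have h3 : |(t + a.im) / 2| ≤ (|t| + |a.im|) / 2 := by
    rw [abs_div, abs_two]
    have := abs_add_le t a.im
    linarith
  have hpi := Real.pi_pos
  nlinarith

/-- the Dirichlet series is at least `1/2` far to the right -/
lemma lser_low [L : Y23.G.LFun] : ∃ σ : ℝ, 2 ≤ σ ∧ ∀ s : ℂ, s.re = 1 / 2 + σ → 1 / 2 ≤ ‖LSeries L.b s‖ := by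
  have hsum : LSeriesSummable L.b (5 / 2) := (L.raw.coef (s := (5 / 2 : ℂ)) (by
    have : (5 / 2 : ℂ).re = 5 / 2 := by norm_num
    rw [this]; norm_num)).1
  set B0 : ℝ := ∑' n, ‖LSeries.term L.b (5 / 2) n‖ with hB0
  have hB00 : 0 ≤ B0 := tsum_nonneg fun _ => norm_nonneg _
  obtain ⟨N, hN⟩ := exists_nat_ge (2 * B0)
  have hN2 : (N : ℝ) ≤ 2 ^ N := by exact_mod_cast (Nat.lt_two_pow_self (n := N)).le
  refine ⟨2 + N, by linarith [(Nat.cast_nonneg N : (0 : ℝ) ≤ N)], fun s hs => ?_⟩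
  have hs1 : 1 + (1 / 2 : ℝ) < s.re := by
    rw [hs]
    linarith [(Nat.cast_nonneg N : (0 : ℝ) ≤ N)]
  have hsums : LSeriesSummable L.b s := (L.raw.coef hs1).1
  have hone : L.b 1 = 1 := L.raw.one
  have hb : ∀ n, ‖LSeries.term L.b s n - (if n = 1 then 1 else 0)‖ ≤
      ‖LSeries.term L.b (5 / 2) n‖ * (1 / 2) ^ N := by
    intro n
    rcases Nat.eq_zero_or_pos n with rfl | hn
    · simp
    rcases eq_or_ne n 1 with rfl | hn1
    · rw [if_pos rfl, LSeries.term_of_ne_zero one_ne_zero, hone]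
      simp
    · rw [if_neg hn1, sub_zero, LSeries.norm_term_eq, LSeries.norm_term_eq, if_neg hn.ne', if_neg hn.ne']
      have hn2 : 2 ≤ n := by omega
      have hn2' : (2 : ℝ) ≤ n := by exact_mod_cast hn2
      have hn0 : (0 : ℝ) < n := by linarith
      have e1 : s.re = 5 / 2 + (N : ℝ) := by rw [hs]; ring
      have e2 : (5 / 2 : ℂ).re = 5 / 2 := by norm_num
      rw [e1, e2, Real.rpow_add hn0, Real.rpow_natCast, one_div, inv_pow, ← div_eq_mul_inv, div_div]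
      refine div_le_div_of_nonneg_left (norm_nonneg _) (by positivity) ?_
      exact mul_le_mul_of_nonneg_left (pow_le_pow_left₀ (by norm_num) hn2' N) (by positivity)
  have h1 : HasSum (fun n => LSeries.term L.b s n - (if n = 1 then 1 else 0)) (LSeries L.b s - 1) :=
    (hsums.hasSum).sub (hasSum_ite_eq 1 1)
  have h2 : HasSum (fun n => ‖LSeries.term L.b (5 / 2) n‖ * (1 / 2) ^ N) (B0 * (1 / 2) ^ N) :=
    (hsum.norm.hasSum).mul_right _
  have h3 : ‖LSeries L.b s - 1‖ ≤ B0 * (1 / 2) ^ N := by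
    rw [← h1.tsum_eq]
    exact tsum_of_norm_bounded h2 hb
  have h4 : B0 * (1 / 2) ^ N ≤ 1 / 2 := by
    rw [one_div, inv_pow, ← div_eq_mul_inv, div_le_iff₀ (by positivity)]
    linarith
  have h5 : ‖(1 : ℂ)‖ ≤ ‖LSeries L.b s‖ + ‖LSeries L.b s - 1‖ := by
    have e : (1 : ℂ) = LSeries L.b s - (LSeries L.b s - 1) := by ring
    conv_lhs => rw [e]
    exact norm_sub_le _ _
  rw [norm_one] at h5
  linarith

/-- **CTR** (job EW-CTR): lower bound on a line to the right; no hypothesis is needed, as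
`|Γ(x + iy)| ≥ Γ(x) exp (- π |y| / 2)` for `x ≥ 1/2` (`gam_low`) -/
theorem ctr : S_Ctr := by
  intro L
  obtain ⟨σ, hσ, hL⟩ := lser_low (L := L)
  refine ⟨σ, hσ, fun ε hε => ?_⟩
  have hg := fun j => gamR_low (L.a j) (L.str j) hσ
  choose g hg0 hg1 using hg
  have hN1 := L.raw.hN
  have hN0 : 0 < L.N := by linarith
  refine ⟨L.N ^ ((1 / 2 + σ) / 2) * (∏ j, g j) * (1 / 2), by
    have : 0 < ∏ j, g j := Finset.prod_pos fun j _ => hg0 j
    positivity, fun t => ?_⟩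
  set s : ℂ := 1 / 2 + σ + t * I with hs
  have hsre : s.re = 1 / 2 + σ := by rw [hs]; simp
  rw [show L.X s = gaf L.N (fun j => -L.a j) s * ((s * (s - 1)) ^ L.r * LSeries L.b s) from
    L.raw.eq' (by rw [hsre]; linarith), gaf_eq, norm_mul, norm_mul, norm_mul, norm_prod]
  have h1 : ‖(L.N : ℂ) ^ (s / 2)‖ = L.N ^ ((1 / 2 + σ) / 2) := by
    rw [Complex.norm_cpow_eq_rpow_re_of_pos hN0]
    congr 1
    rw [show (2 : ℂ) = ((2 : ℝ) : ℂ) by norm_num, Complex.div_ofReal_re, hsre]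
  have h2 : (∏ j, g j) * Real.exp (-(L.m * Real.pi / 4 * |t|)) ≤ ∏ j, ‖Gammaℝ (s + L.a j)‖ := by
    have e : (∏ j, g j) * Real.exp (-(L.m * Real.pi / 4 * |t|)) = ∏ j, (g j * Real.exp (-(Real.pi / 4 * |t|))) := by
      rw [Finset.prod_mul_distrib, Finset.prod_const, Finset.card_univ, Fintype.card_fin, ← Real.exp_nat_mul]
      congr 2
      ring
    rw [e]
    refine Finset.prod_le_prod (fun j _ => ?_) fun j _ => hg1 j t
    exact (mul_pos (hg0 j) (Real.exp_pos _)).le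
  have h3 : 1 ≤ ‖(s * (s - 1)) ^ L.r‖ := by
    rw [norm_pow]
    refine one_le_pow₀ ?_
    rw [norm_mul]
    have h4 : 1 ≤ ‖s‖ := by
      have := Complex.re_le_norm s
      linarith
    have h5 : 1 ≤ ‖s - 1‖ := by
      have := Complex.re_le_norm (s - 1)
      rw [Complex.sub_re, Complex.one_re] at this
      linarith
    nlinarith
  have h4 := hL s hsre
  have h5 : 1 * (1 / 2) ≤ ‖(s * (s - 1)) ^ L.r‖ * ‖LSeries L.b s‖ :=
    mul_le_mul h3 h4 (by norm_num) (norm_nonneg _)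
  have h6 : Real.exp (-((L.m * Real.pi / 4 + ε) * |t|)) ≤ Real.exp (-(L.m * Real.pi / 4 * |t|)) := by
    apply Real.exp_le_exp.mpr
    have := abs_nonneg t
    nlinarith
  have hP : 0 ≤ ∏ j, g j := Finset.prod_nonneg fun j _ => (hg0 j).le
  rw [h1]
  calc L.N ^ ((1 / 2 + σ) / 2) * (∏ j, g j) * (1 / 2) * Real.exp (-((L.m * Real.pi / 4 + ε) * |t|))
      ≤ L.N ^ ((1 / 2 + σ) / 2) * (∏ j, g j) * (1 / 2) * Real.exp (-(L.m * Real.pi / 4 * |t|)) :=
        mul_le_mul_of_nonneg_left h6 (by positivity)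
    _ = L.N ^ ((1 / 2 + σ) / 2) * ((∏ j, g j) * Real.exp (-(L.m * Real.pi / 4 * |t|))) * (1 * (1 / 2)) := by ring
    _ ≤ L.N ^ ((1 / 2 + σ) / 2) * (∏ j, ‖Gammaℝ (s + L.a j)‖) * (‖(s * (s - 1)) ^ L.r‖ * ‖LSeries L.b s‖) := by
        refine mul_le_mul (mul_le_mul_of_nonneg_left h2 (by positivity)) h5 (by norm_num) (by positivity)

end Pool.Agent.Q166.EW
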