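import Pool.Agent.Q166.EW.Min
import Pool.Agent.Q166.EW.Ctr

/-! # Project EWC, job EW-LOW: lower bound near the critical line outside of the zeros -/

set_option autoImplicit false
set_option linter.unusedSectionVars false

open Complex Filter Topology Finset

namespace Pool.Agent.Q166.EW

open Pool.Agent.Q286.EW
open Pool.Agent.Y23.G (Lg one_le_Lg Lg_add X_cnt Xd)

/-- `Ek` is bounded on bounded sets -/
lemma Ek_bdd {m k A T : ℝ} (hm : 0 ≤ m) (hA : 0 ≤ A) (hT : 1 ≤ T) : ∃ E0 : ℝ, 0 ≤ E0 ∧ ∀ x : ℝ, 0 ≤ x → x ≤ T →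
    Ek m k A x ≤ E0 := by
  refine ⟨A + A * Real.log (2 + T) + m / 2 * (T * Real.log T + |k| * T), ?_, ?_⟩
  · have h1 := Real.log_nonneg (show 1 ≤ 2 + T by linarith)
    have h2 := Real.log_nonneg hT
    positivity
  · intro x hx hxT
    unfold Ek
    have h1 : Real.log (2 + x) ≤ Real.log (2 + T) := Real.log_le_log (by positivity) (by linarith)
    have h2 : x * Real.log x ≤ T * Real.log T := by
      rcases le_total x 1 with h | h
      · have h3 : Real.log x ≤ 0 := Real.log_nonpos hx h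
        have h4 := Real.log_nonneg hT
        have h5 : x * Real.log x ≤ 0 := mul_nonpos_of_nonneg_of_nonpos hx h3
        have h6 : 0 ≤ T * Real.log T := by positivity
        linarith
      · have h3 : Real.log x ≤ Real.log T := Real.log_le_log (by linarith) hxT
        have h4 := Real.log_nonneg h
        exact mul_le_mul hxT h3 h4 (by linarith)
    have h3 : -(x * k) ≤ |k| * T := by
      have h4 : -k ≤ |k| := neg_le_abs k
      have h5 := abs_nonneg k
      nlinarith
    have h4 : x * (Real.log x - k) ≤ T * Real.log T + |k| * T := by nlinarith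
    have h5 : m / 2 * (x * (Real.log x - k)) ≤ m / 2 * (T * Real.log T + |k| * T) :=
      mul_le_mul_of_nonneg_left h4 (by positivity)
    have h6 : A * Real.log (2 + x) ≤ A * Real.log (2 + T) := mul_le_mul_of_nonneg_left h1 hA
    linarith

/-- the multiplicity of a translate -/
lemma ord_shift (f : ℂ → ℂ) (c s : ℂ) :
    analyticOrderNatAt (fun w => f (c + w)) s = analyticOrderNatAt f (c + s) := by
  have h1 : AnalyticAt ℂ (fun w : ℂ => c + w) s := by fun_prop
  have h2 : deriv (fun w : ℂ => c + w) s ≠ 0 := by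
    rw [deriv_const_add]
    simp
  have h3 := analyticOrderAt_comp_of_deriv_ne_zero (f := f) h1 h2
  unfold analyticOrderNatAt
  have e : (fun w => f (c + w)) = f ∘ (fun w : ℂ => c + w) := rfl
  rw [e, h3]

lemma sum_biUnion_le' {ι κ : Type*} [DecidableEq κ] (T : Finset ι) (U : ι → Finset κ) (g : κ → ℕ) :
    ∑ s ∈ T.biUnion U, g s ≤ ∑ j ∈ T, ∑ s ∈ U j, g s := by
  classical
  induction T using Finset.induction_on with
  | empty => simp
  | insert a T ha ih =>
    rw [Finset.biUnion_insert, Finset.sum_insert ha]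
    have h1 : ∑ s ∈ U a ∪ T.biUnion U, g s ≤ ∑ s ∈ U a, g s + ∑ s ∈ T.biUnion U, g s := by
      rw [← Finset.sum_union_inter]
      exact Nat.le_add_right _ _
    omega

/-- the number of zeros in a large disc -/
lemma disc_cnt [L : Y23.G.LFun] {r : ℝ} (_hr : 0 ≤ r) : ∃ C : ℝ, 0 < C ∧ ∀ (z0 : ℂ) (S : Finset ℂ),
    (∀ s ∈ S, L.X (1 / 2 + s) = 0 ∧ ‖s - z0‖ ≤ r) →
      ((∑ s ∈ S, analyticOrderNatAt (fun w => L.X (1 / 2 + w)) s : ℕ) : ℝ) ≤ C * Lg z0.im := by
  classical
  obtain ⟨C, hC, h⟩ := X_cnt (L := L)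
  set J : ℕ := ⌈r⌉₊ with hJ
  have hrJ : r ≤ J := Nat.le_ceil r
  refine ⟨(2 * J + 1) * (C * (1 + J)), by positivity, fun z0 S hS => ?_⟩
  set T : Finset ℤ := Finset.Icc (-(J : ℤ)) J with hT
  -- the window of a zero
  have hwin : ∀ s ∈ S, ∃ j ∈ T, |(1 / 2 + s).im - (z0.im + j)| ≤ 1 := by
    intro s hs
    have h1 : |s.im - z0.im| ≤ r := by
      have := Complex.abs_im_le_norm (s - z0)
      rw [Complex.sub_im] at this
      exact this.trans (hS s hs).2
    have h2 := abs_le.mp h1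
    have him : (1 / 2 + s).im = s.im := by simp
    rw [him]
    rcases le_total 0 (s.im - z0.im) with h0 | h0
    · refine ⟨⌊s.im - z0.im⌋, ?_, ?_⟩
      · rw [hT, Finset.mem_Icc]
        constructor
        · have : (0 : ℤ) ≤ ⌊s.im - z0.im⌋ := Int.floor_nonneg.mpr h0
          omega
        · have h3 : (⌊s.im - z0.im⌋ : ℝ) ≤ J := (Int.floor_le _).trans (h2.2.trans hrJ)
          exact_mod_cast h3
      · have h3 := Int.floor_le (s.im - z0.im)
        have h4 := Int.lt_floor_add_one (s.im - z0.im)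
        rw [abs_le]
        constructor <;> linarith
    · refine ⟨⌈s.im - z0.im⌉, ?_, ?_⟩
      · rw [hT, Finset.mem_Icc]
        constructor
        · have h3 : (-(J : ℝ)) ≤ ⌈s.im - z0.im⌉ := by
            refine le_trans ?_ (Int.le_ceil _)
            linarith [h2.1]
          exact_mod_cast h3
        · have h3 : ⌈s.im - z0.im⌉ ≤ 0 := Int.ceil_le.mpr (by simpa using h0)
          omega
      · have h3 := Int.le_ceil (s.im - z0.im)
        have h4 := Int.ceil_lt_add_one (s.im - z0.im)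
        rw [abs_le]
        constructor <;> linarith
  have hsub : S ⊆ T.biUnion fun j => S.filter fun s => |(1 / 2 + s).im - (z0.im + j)| ≤ 1 := by
    intro s hs
    obtain ⟨j, hj, hj1⟩ := hwin s hs
    rw [Finset.mem_biUnion]
    exact ⟨j, hj, Finset.mem_filter.mpr ⟨hs, hj1⟩⟩
  have hsum : ∑ s ∈ S, analyticOrderNatAt (fun w => L.X (1 / 2 + w)) s ≤
      ∑ j ∈ T, ∑ s ∈ S.filter (fun s => |(1 / 2 + s).im - (z0.im + j)| ≤ 1),
        analyticOrderNatAt (fun w => L.X (1 / 2 + w)) s :=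
    (Finset.sum_le_sum_of_subset hsub).trans (sum_biUnion_le' _ _ _)
  have hone : ∀ j ∈ T, ((∑ s ∈ S.filter (fun s => |(1 / 2 + s).im - (z0.im + j)| ≤ 1),
        analyticOrderNatAt (fun w => L.X (1 / 2 + w)) s : ℕ) : ℝ) ≤ C * (1 + J) * Lg z0.im := by
    intro j hj
    have h1 := h (z0.im + j) ((S.filter (fun s => |(1 / 2 + s).im - (z0.im + j)| ≤ 1)).map
      (addLeftEmbedding (1 / 2 : ℂ))) (by
        intro s hs
        rw [Finset.mem_map] at hs
        obtain ⟨u, hu, rfl⟩ := hs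
        rw [Finset.mem_filter] at hu
        exact ⟨(hS u hu.1).1, hu.2⟩)
    rw [Finset.sum_map] at h1
    have e : ∑ s ∈ S.filter (fun s => |(1 / 2 + s).im - (z0.im + j)| ≤ 1),
        analyticOrderNatAt (fun w => L.X (1 / 2 + w)) s =
        ∑ s ∈ S.filter (fun s => |(1 / 2 + s).im - (z0.im + j)| ≤ 1),
          H370.mult L.X (addLeftEmbedding (1 / 2 : ℂ) s) := by
      refine Finset.sum_congr rfl fun s _ => ?_
      rw [ord_shift]
      rfl
    rw [e]
    refine h1.trans ?_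
    have h2 := Lg_add z0.im j
    have h3 : |(j : ℝ)| ≤ J := by
      rw [hT, Finset.mem_Icc] at hj
      rw [abs_le]
      constructor
      · have : ((-(J : ℤ) : ℤ) : ℝ) ≤ j := by exact_mod_cast hj.1
        push_cast at this
        exact this
      · exact_mod_cast hj.2
    have h4 := one_le_Lg z0.im
    have h5 : (0 : ℝ) ≤ J := Nat.cast_nonneg J
    rw [mul_assoc]
    refine mul_le_mul_of_nonneg_left ?_ hC.le
    nlinarith
  have hcard : (T.card : ℝ) = 2 * J + 1 := by
    rw [hT, Int.card_Icc]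
    have : ((J : ℤ) + 1 - -(J : ℤ)).toNat = 2 * J + 1 := by omega
    rw [this]
    push_cast
    ring
  calc ((∑ s ∈ S, analyticOrderNatAt (fun w => L.X (1 / 2 + w)) s : ℕ) : ℝ)
      ≤ ((∑ j ∈ T, ∑ s ∈ S.filter (fun s => |(1 / 2 + s).im - (z0.im + j)| ≤ 1),
        analyticOrderNatAt (fun w => L.X (1 / 2 + w)) s : ℕ) : ℝ) := by exact_mod_cast hsum
    _ = ∑ j ∈ T, ((∑ s ∈ S.filter (fun s => |(1 / 2 + s).im - (z0.im + j)| ≤ 1),
        analyticOrderNatAt (fun w => L.X (1 / 2 + w)) s : ℕ) : ℝ) := by rw [Nat.cast_sum]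
    _ ≤ ∑ _j ∈ T, C * (1 + J) * Lg z0.im := Finset.sum_le_sum hone
    _ = (2 * J + 1) * (C * (1 + J)) * Lg z0.im := by
        rw [Finset.sum_const, nsmul_eq_mul, hcard]
        ring

/-- **LOW** (job EW-LOW): lower bound of the completed L-function near the critical line outside of the zeros -/
theorem low (hrot : S_Rot) : S_Low := by
  intro L ε hε
  obtain ⟨σ, hσ, hctr⟩ := ctr (L := L)
  have hm : (1 : ℝ) ≤ L.m := by exact_mod_cast L.raw.hm
  have hm0 : (0 : ℝ) < L.m := by linarith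
  set R : ℝ := σ + 2 with hR
  have hR4 : 4 ≤ R := by rw [hR]; linarith
  have hR0 : 0 < R := by linarith
  set ε1 : ℝ := ε / 6 with hε1
  have hε10 : 0 < ε1 := by rw [hε1]; positivity
  set δ' : ℝ := min (ε / (2 * L.m)) (Real.pi / 2) with hδ'
  have hpi := Real.pi_pos
  have hδ0 : 0 < δ' := lt_min (by positivity) (by positivity)
  have hδ1 : δ' ≤ Real.pi / 2 := min_le_right _ _
  have hδ2 : L.m * δ' ≤ ε / 2 := by
    have h1 : δ' ≤ ε / (2 * L.m) := min_le_left _ _
    calc L.m * δ' ≤ L.m * (ε / (2 * L.m)) := mul_le_mul_of_nonneg_left h1 hm0.le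
      _ = ε / 2 := by field_simp
  set φ : ℝ := Real.pi / 2 - δ' with hφ
  have hφ0 : 0 ≤ φ := by rw [hφ]; linarith
  have hφ1 : φ < Real.pi / 2 := by rw [hφ]; linarith
  obtain ⟨c, hc, hctr1⟩ := hctr ε1 hε10
  obtain ⟨A, hA, hrot1⟩ := hrot (L := L) φ hφ0 hφ1
  obtain ⟨E0, hE0, hEk⟩ := Ek_bdd (m := L.m) (k := Y23.G.kp + Real.log (Real.cos φ)) (A := A) (T := 5 * R)
    hm0.le hA (by linarith)
  obtain ⟨C', hC', hcnt⟩ := disc_cnt (L := L) (r := 2 * R) (by positivity)
  set E1 : ℝ := |E0 + 2 * L.m * φ * R - Real.log c| with hE1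
  have hE10 : 0 ≤ E1 := abs_nonneg _
  have hl2R : 0 ≤ Real.log (2 * R) := Real.log_nonneg (by linarith)
  refine ⟨2 * E1 + |Real.log c| + C' * (1 + Real.log (2 * R)), by positivity, ?_⟩
  intro z η hz hη hη1 hzero
  set Y := |z.im| with hY
  have hY0 : 0 ≤ Y := abs_nonneg _
  set z0 : ℂ := σ + z.im * I with hz0
  have hz0re : z0.re = σ := by rw [hz0]; simp
  have hz0im : z0.im = z.im := by rw [hz0]; simp
  set δ : ℝ := (L.m * Real.pi / 4 + ε1) - L.m * φ / 2 with hδ
  have hδe : δ = ε1 + L.m * δ' / 2 := by rw [hδ, hφ]; ring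
  have hδ00 : 0 ≤ δ := by rw [hδe]; positivity
  set M : ℝ := Real.exp (E1 + δ * Y) with hM
  have hM1 : 1 ≤ M := Real.one_le_exp (by positivity)
  have hlow0 : c * Real.exp (-((L.m * Real.pi / 4 + ε1) * Y)) ≤ ‖L.X (1 / 2 + z0)‖ := by
    have h1 := hctr1 z.im
    have e : (1 / 2 + σ + z.im * I : ℂ) = 1 / 2 + z0 := by rw [hz0]; ring
    rwa [e] at h1
  have hne : L.X (1 / 2 + z0) ≠ 0 := by
    rw [← norm_pos_iff]
    exact lt_of_lt_of_le (by positivity) hlow0
  have hup : ∀ w, ‖w - z0‖ ≤ 4 * R → ‖L.X (1 / 2 + w)‖ ≤ M * ‖L.X (1 / 2 + z0)‖ := by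
    intro w hw
    have h1 := hrot1 w
    have hre : |w.re| ≤ 5 * R := by
      have h2 := (Complex.abs_re_le_norm (w - z0)).trans hw
      rw [Complex.sub_re, hz0re] at h2
      have h3 := abs_le.mp h2
      rw [abs_le]
      constructor <;> linarith
    have him : Y - 4 * R ≤ |w.im| := by
      have h2 := (Complex.abs_im_le_norm (w - z0)).trans hw
      rw [Complex.sub_im, hz0im] at h2
      have h3 : |z.im| ≤ |w.im| + |w.im - z.im| := by
        have := abs_sub_abs_le_abs_sub z.im w.im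
        rw [abs_sub_comm] at this
        linarith
      rw [hY]
      linarith
    have h4 : Real.exp (Ek L.m (Y23.G.kp + Real.log (Real.cos φ)) A |w.re|) / (1 + w.im ^ 2) ≤ Real.exp E0 := by
      refine (div_le_self (Real.exp_pos _).le (by nlinarith [sq_nonneg w.im])).trans ?_
      exact Real.exp_le_exp.mpr (hEk _ (abs_nonneg _) hre)
    have h5 : ‖L.X (1 / 2 + w)‖ ≤ Real.exp (E0 - L.m * φ / 2 * |w.im|) := by
      rw [Real.exp_sub, le_div_iff₀ (Real.exp_pos _)]
      exact h1.trans h4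
    have h6 : Real.exp (E0 - L.m * φ / 2 * |w.im|) ≤ Real.exp (E0 + 2 * L.m * φ * R - L.m * φ / 2 * Y) := by
      apply Real.exp_le_exp.mpr
      have h7 : 0 ≤ L.m * φ / 2 := by positivity
      nlinarith [mul_le_mul_of_nonneg_left him h7]
    refine (h5.trans h6).trans ?_
    refine le_trans ?_ (mul_le_mul_of_nonneg_left hlow0 (Real.exp_pos _).le)
    have hcexp : c = Real.exp (Real.log c) := (Real.exp_log hc).symm
    rw [hM, hcexp, ← Real.exp_add, ← Real.exp_add]
    apply Real.exp_le_exp.mpr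
    have h8 : E0 + 2 * L.m * φ * R - Real.log c ≤ E1 := le_abs_self _
    have h9 : δ * Y = (L.m * Real.pi / 4 + ε1) * Y - L.m * φ / 2 * Y := by rw [hδ]; ring
    linarith
  have hηR : η ≤ R := by linarith
  have hzz : ‖z - z0‖ ≤ R := by
    have e : z - z0 = ((z.re - σ : ℝ) : ℂ) := by
      apply Complex.ext
      · rw [Complex.sub_re, hz0re, Complex.ofReal_re]
      · rw [Complex.sub_im, hz0im, Complex.ofReal_im, sub_self]
    rw [e, Complex.norm_real, Real.norm_eq_abs]
    have := abs_le.mp hz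
    rw [abs_le]
    constructor <;> linarith
  set n : ℕ := ⌊C' * Lg z0.im⌋₊ with hn
  have hL1 := one_le_Lg z.im
  have hmain := min_ (fun w => L.X (1 / 2 + w)) z0 z R M η n (by
      have := Xd (L := L)
      fun_prop) hR0 hM1 hη hηR hne hup (by
      intro S hS
      rw [hn]
      exact Nat.le_floor (hcnt z0 S hS)) hzz hzero
  refine le_trans ?_ hmain
  -- the comparison of the exponents
  have hn1 : (n : ℝ) ≤ C' * Lg z.im := by
    rw [hn, hz0im]
    exact Nat.floor_le (by positivity)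
  set ℓ := Real.log (1 / η) with hℓ
  have hℓ0 : 0 ≤ ℓ := Real.log_nonneg (by rw [le_div_iff₀ hη]; linarith)
  have e1 : (η / (2 * R)) ^ n = Real.exp (-(n * (Real.log (2 * R) + ℓ))) := by
    have e2 : η / (2 * R) = Real.exp (-(Real.log (2 * R) + ℓ)) := by
      rw [hℓ, one_div, Real.log_inv, neg_add, neg_neg, Real.exp_add, Real.exp_neg, Real.exp_log (by positivity),
        Real.exp_log hη]
      field_simp
    rw [e2, ← Real.exp_nat_mul]
    congr 1
    ring
  have e2 : (M ^ 2)⁻¹ = Real.exp (-(2 * (E1 + δ * Y))) := by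
    rw [hM, ← Real.exp_nat_mul, ← Real.exp_neg]
    congr 1
  rw [e1, e2]
  have h10 : Real.exp (Real.log c - (L.m * Real.pi / 4 + ε1) * Y) ≤ ‖L.X (1 / 2 + z0)‖ := by
    have e3 : Real.exp (Real.log c - (L.m * Real.pi / 4 + ε1) * Y) =
        c * Real.exp (-((L.m * Real.pi / 4 + ε1) * Y)) := by
      rw [sub_eq_add_neg, Real.exp_add, Real.exp_log hc]
    rw [e3]
    exact hlow0
  have h11 : Real.exp (Real.log c - (L.m * Real.pi / 4 + ε1) * Y) * Real.exp (-(2 * (E1 + δ * Y))) *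
      Real.exp (-(n * (Real.log (2 * R) + ℓ))) ≤
      ‖L.X (1 / 2 + z0)‖ * Real.exp (-(2 * (E1 + δ * Y))) * Real.exp (-(n * (Real.log (2 * R) + ℓ))) := by
    gcongr
  refine le_trans ?_ h11
  rw [← Real.exp_add, ← Real.exp_add]
  apply Real.exp_le_exp.mpr
  have h12 : (n : ℝ) * (Real.log (2 * R) + ℓ) ≤ C' * (1 + Real.log (2 * R)) * Lg z.im * (1 + ℓ) := by
    have h13 : Real.log (2 * R) + ℓ ≤ (1 + Real.log (2 * R)) * (1 + ℓ) := by nlinarith
    calc (n : ℝ) * (Real.log (2 * R) + ℓ) ≤ (C' * Lg z.im) * ((1 + Real.log (2 * R)) * (1 + ℓ)) :=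
          mul_le_mul hn1 h13 (by positivity) (by positivity)
      _ = _ := by ring
  have h13 : 2 * E1 + |Real.log c| ≤ (2 * E1 + |Real.log c|) * (Lg z.im * (1 + ℓ)) := by
    have h14 : 1 ≤ Lg z.im * (1 + ℓ) := by nlinarith
    exact le_mul_of_one_le_right (by positivity) h14
  have h14 : -|Real.log c| ≤ Real.log c := neg_abs_le _
  have h15 : (L.m * Real.pi / 4 + ε1) * Y + 2 * (δ * Y) ≤ (L.m * Real.pi / 4 + ε) * Y := by
    have h16 : L.m * Real.pi / 4 + ε1 + 2 * δ ≤ L.m * Real.pi / 4 + ε := by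
      rw [hδe, hε1]
      linarith
    nlinarith
  have e5 : (2 * E1 + |Real.log c| + C' * (1 + Real.log (2 * R))) * Lg z.im * (1 + ℓ) =
      (2 * E1 + |Real.log c|) * (Lg z.im * (1 + ℓ)) + C' * (1 + Real.log (2 * R)) * Lg z.im * (1 + ℓ) := by ring
  rw [e5]
  linarith

end Pool.Agent.Q166.EW
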