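import Pool.Agent.Q286.EW.Stm2
import Pool.Agent.Q166.EW.Low

/-! # Project EWC, job EWU-CIR: circles with a lower bound -/

set_option autoImplicit false
set_option linter.unusedSectionVars false

open Complex Filter Topology Finset

namespace Pool.Agent.Q166.EW

open Pool.Agent.Q286.EW
open Pool.Agent.Y23.G (Lg one_le_Lg Xd X_ne)
open scoped Polynomial

/-! ### monic real polynomials with real roots (copy of `Q240.QS.real_prod`) -/

lemma mprod_abs' (s : Multiset ℝ) (f : ℝ → ℝ) :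
    |(s.map f).prod| = (s.map fun a => |f a|).prod := by
  induction s using Multiset.induction_on with
  | empty => simp
  | cons a s ih => simp [abs_mul, ih]

/-- monic real polynomials with real roots are not small on an interval -/
lemma real_prod' (s : Multiset ℝ) (ρ : ℝ) (hρ : 0 < ρ) :
    ∃ r : ℝ, ρ ≤ r ∧ r ≤ 2 * ρ ∧ (ρ / 4) ^ (Multiset.card s) ≤ (s.map fun a => |r - a|).prod := by
  classical
  by_contra hcon
  push Not at hcon
  set n := Multiset.card s with hn
  set Q : ℝ[X] := (s.map fun a => Polynomial.X - Polynomial.C a).prod with hQ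
  have hQm : Q.Monic := Polynomial.monic_multiset_prod_of_monic _ _ fun a _ => Polynomial.monic_X_sub_C a
  have hQd : Q.natDegree = n := by
    rw [hQ, Polynomial.natDegree_multiset_prod_X_sub_C_eq_card]
  have hev : ∀ x : ℝ, |Q.eval x| = (s.map fun a => |x - a|).prod := by
    intro x
    rw [hQ, Polynomial.eval_multiset_prod, Multiset.map_map, mprod_abs']
    simp
  rcases Nat.eq_zero_or_pos n with h0 | hpos
  · have h1 := hcon ρ le_rfl (by linarith)
    have hs : s = 0 := Multiset.card_eq_zero.1 (by rw [← hn]; exact h0)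
    rw [h0, hs] at h1
    simp at h1
  · set L : ℝ[X] := Polynomial.C (ρ / 2) * Polynomial.X + Polynomial.C (3 * ρ / 2) with hL
    have hLd : L.natDegree = 1 := Polynomial.natDegree_linear (by positivity)
    have hLl : L.leadingCoeff = ρ / 2 := Polynomial.leadingCoeff_linear (by positivity)
    set P : ℝ[X] := Q.comp L * Polynomial.C ((4 / ρ) ^ n) with hP
    have hc0 : (4 / ρ) ^ n ≠ 0 := by positivity
    have hcd : (Q.comp L).natDegree = n := by
      rw [Polynomial.natDegree_comp, hLd, hQd, mul_one]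
    have hPd : P.natDegree = n := by
      rw [hP, Polynomial.natDegree_mul_C hc0, hcd]
    have hPl : P.leadingCoeff = 2 ^ n := by
      rw [hP, Polynomial.leadingCoeff_mul, Polynomial.leadingCoeff_C,
        Polynomial.leadingCoeff_comp (by rw [hLd]; norm_num), hQm.leadingCoeff, one_mul, hLl, hQd,
        ← mul_pow]
      congr 1
      field_simp
      norm_num
    have h1 := Polynomial.Chebyshev.leadingCoeff_le_of_forall_abs_le_one (n := n) (P := P)
      (Polynomial.degree_le_of_natDegree_le hPd.le) (by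
        intro x hx
        rw [hP, Polynomial.eval_mul, Polynomial.eval_comp, Polynomial.eval_C, abs_mul, hev]
        have e1 : L.eval x = ρ / 2 * x + 3 * ρ / 2 := by simp [hL]
        rw [e1]
        have h2 := hcon (ρ / 2 * x + 3 * ρ / 2) (by nlinarith [hx.1]) (by nlinarith [hx.2])
        rw [abs_of_pos (by positivity : (0 : ℝ) < (4 / ρ) ^ n)]
        calc _ ≤ (ρ / 4) ^ n * (4 / ρ) ^ n := mul_le_mul_of_nonneg_right h2.le (by positivity)
          _ = 1 := by
            rw [← mul_pow]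
            have : ρ / 4 * (4 / ρ) = 1 := by field_simp
            rw [this, one_pow])
    rw [hPl] at h1
    have h2 : (2 : ℝ) ^ (n - 1) < 2 ^ n := pow_lt_pow_right₀ (by norm_num) (by omega)
    linarith

/-- the form for two lists of the same length -/
lemma real_prod_list (l : List ℂ) (F1 F2 : ℂ → ℝ) (ρ : ℝ) (hρ : 0 < ρ) :
    ∃ r : ℝ, ρ ≤ r ∧ r ≤ 2 * ρ ∧ (ρ / 4) ^ (2 * l.length) ≤
      (l.map fun b => |r - F1 b|).prod * (l.map fun b => |r - F2 b|).prod := by
  obtain ⟨r, h1, h2, h3⟩ := real_prod' ((l.map F1 : List ℝ) + (l.map F2 : List ℝ) : Multiset ℝ) ρ hρ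
  refine ⟨r, h1, h2, ?_⟩
  have e1 : Multiset.card ((l.map F1 : List ℝ) + (l.map F2 : List ℝ) : Multiset ℝ) = 2 * l.length := by
    simp [two_mul]
  rw [e1, Multiset.map_add, Multiset.prod_add, Multiset.map_coe, Multiset.map_coe, Multiset.prod_coe,
    Multiset.prod_coe, List.map_map, List.map_map] at h3
  exact h3

/-! ### products over lists -/

lemma lprod_nonneg (l : List ℂ) (F : ℂ → ℝ) (hF : ∀ b ∈ l, 0 ≤ F b) : 0 ≤ (l.map F).prod := by
  induction l with
  | nil => simp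
  | cons a l ih =>
    simp only [List.map_cons, List.prod_cons]
    exact mul_nonneg (hF a (by simp)) (ih fun b hb => hF b (by simp [hb]))

lemma lprod_le (l : List ℂ) (F : ℂ → ℝ) {T : ℝ} (hF : ∀ b ∈ l, 0 ≤ F b ∧ F b ≤ T) :
    (l.map F).prod ≤ T ^ l.length := by
  induction l with
  | nil => simp
  | cons a l ih =>
    simp only [List.map_cons, List.prod_cons, List.length_cons]
    rw [pow_succ']
    have h1 := hF a (by simp)
    exact mul_le_mul h1.2 (ih fun b hb => hF b (by simp [hb]))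
      (lprod_nonneg l F fun b hb => (hF b (by simp [hb])).1) (h1.1.trans h1.2)

lemma lprod_le_factor (l : List ℂ) (F : ℂ → ℝ) {T : ℝ} (hT : 1 ≤ T) (hF : ∀ b ∈ l, 0 ≤ F b ∧ F b ≤ T)
    {w : ℂ} (hw : w ∈ l) : (l.map F).prod ≤ F w * T ^ l.length := by
  induction l with
  | nil => simp at hw
  | cons a l ih =>
    simp only [List.map_cons, List.prod_cons, List.length_cons]
    have h1 := hF a (by simp)
    have hl : ∀ b ∈ l, 0 ≤ F b ∧ F b ≤ T := fun b hb => hF b (by simp [hb])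
    have hT0 : 0 ≤ T := by linarith
    rcases List.mem_cons.1 hw with rfl | hw
    · refine mul_le_mul_of_nonneg_left ?_ h1.1
      refine (lprod_le l F hl).trans ?_
      exact pow_le_pow_right₀ hT (Nat.le_succ _)
    · have h2 := ih hl hw
      calc F a * (l.map F).prod ≤ T * (F w * T ^ l.length) :=
            mul_le_mul h1.2 h2 (lprod_nonneg l F fun b hb => (hl b hb).1) hT0
        _ = F w * T ^ (l.length + 1) := by rw [pow_succ]; ring

lemma lprod_le_norm (l : List ℂ) (F : ℂ → ℝ) (z : ℂ) (hF : ∀ b ∈ l, 0 ≤ F b ∧ F b ≤ ‖z - b‖) :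
    (l.map F).prod ≤ ‖(l.map (fun s => z - s)).prod‖ := by
  induction l with
  | nil => simp
  | cons a l ih =>
    simp only [List.map_cons, List.prod_cons, norm_mul]
    have h1 := hF a (by simp)
    exact mul_le_mul h1.2 (ih fun b hb => hF b (by simp [hb]))
      (lprod_nonneg l F fun b hb => (hF b (by simp [hb])).1) (norm_nonneg _)

/-! ### the product form of the minimum modulus lemma -/

lemma minP {f : ℂ → ℂ} {z0 : ℂ} {R M : ℝ} {n : ℕ} (hf : Differentiable ℂ f) (hR : 0 < R) (hM : 1 ≤ M)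
    (h0 : f z0 ≠ 0) (hub : ∀ w, ‖w - z0‖ ≤ 4 * R → ‖f w‖ ≤ M * ‖f z0‖)
    (hS : ∀ S : Finset ℂ, (∀ s ∈ S, f s = 0 ∧ ‖s - z0‖ ≤ 2 * R) → ∑ s ∈ S, analyticOrderNatAt f s ≤ n) :
    ∃ l : List ℂ, l.length ≤ n ∧ (∀ s ∈ l, ‖s - z0‖ ≤ 2 * R) ∧
      (∀ w, ‖w - z0‖ ≤ 2 * R → f w = 0 → w ∈ l) ∧
      ∀ z, ‖z - z0‖ ≤ R →
        ‖f z0‖ * (M ^ 2)⁻¹ * (((2 * R) ^ l.length)⁻¹ * ‖(l.map (fun s => z - s)).prod‖) ≤ ‖f z‖ := by
  obtain ⟨l, g, hl, hg, hfg, hl0, hgnz⟩ := fac z0 (2 * R) n f hf h0 hS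
  refine ⟨l, hl, fun s hs => (hl0 s hs).2, ?_, ?_⟩
  · intro w hw hw0
    have h1 : (l.map (fun s => w - s)).prod = 0 := by
      have h2 := hfg w
      rw [hw0] at h2
      rcases mul_eq_zero.1 h2.symm with h3 | h3
      · exact absurd h3 (hgnz w hw)
      · exact h3
    rw [List.prod_eq_zero_iff, List.mem_map] at h1
    obtain ⟨s, hs, hs0⟩ := h1
    rw [sub_eq_zero] at hs0
    rw [hs0]
    exact hs
  intro z hz
  set k := l.length with hk
  have h2R : 0 < 2 * R := by positivity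
  -- bound on the sphere of radius `4 R`
  have hsph : ∀ w, ‖w - z0‖ = 4 * R → ‖g w‖ ≤ M * ‖f z0‖ * ((2 * R) ^ k)⁻¹ := by
    intro w hw
    have h1 : (2 * R) ^ k ≤ ‖(l.map (fun s => w - s)).prod‖ := by
      refine prod_ge h2R.le w l fun s hs => ?_
      have h2 := (hl0 s hs).2
      have h3 : ‖w - z0‖ ≤ ‖w - s‖ + ‖s - z0‖ := by
        have e : w - z0 = (w - s) + (s - z0) := by ring
        rw [e]
        exact norm_add_le _ _
      linarith
    have h4 := hub w hw.le
    rw [hfg w, norm_mul] at h4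
    have h5 : (0 : ℝ) < (2 * R) ^ k := by positivity
    rw [← div_eq_mul_inv, le_div_iff₀ h5]
    exact (mul_le_mul_of_nonneg_left h1 (norm_nonneg _)).trans h4
  have hball : ∀ w, ‖w - z0‖ ≤ 4 * R → ‖g w‖ ≤ M * ‖f z0‖ * ((2 * R) ^ k)⁻¹ := by
    intro w hw
    refine Complex.norm_le_of_forall_mem_frontier_norm_le (U := Metric.ball z0 (4 * R)) Metric.isBounded_ball
      hg.diffContOnCl ?_ ?_
    · intro u hu
      rw [frontier_ball z0 (by positivity)] at hu
      have := mem_sphere_iff_norm.mp hu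
      exact hsph u this
    · rw [closure_ball z0 (by positivity)]
      rwa [Metric.mem_closedBall, dist_eq_norm]
  have hg0 : ‖f z0‖ * ((2 * R) ^ k)⁻¹ ≤ ‖g z0‖ := by
    have h1 : ‖(l.map (fun s => z0 - s)).prod‖ ≤ (2 * R) ^ k := by
      refine prod_le z0 l fun s hs => ?_
      rw [norm_sub_rev]
      exact (hl0 s hs).2
    have h5 : (0 : ℝ) < (2 * R) ^ k := by positivity
    rw [← div_eq_mul_inv, div_le_iff₀ h5]
    conv_lhs => rw [hfg z0, norm_mul]
    exact mul_le_mul_of_nonneg_left h1 (norm_nonneg _)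
  have hM0 : 0 < M := by linarith
  have h1 := min_nz hR hM hg hgnz (fun w hw => (hball w (by linarith)).trans (by
    rw [mul_assoc]
    exact mul_le_mul_of_nonneg_left hg0 hM0.le)) hz
  rw [hfg z, norm_mul]
  have h4 : ‖f z0‖ * ((2 * R) ^ k)⁻¹ * (M ^ 2)⁻¹ ≤ ‖g z‖ :=
    (mul_le_mul_of_nonneg_right hg0 (by positivity)).trans h1
  calc ‖f z0‖ * (M ^ 2)⁻¹ * (((2 * R) ^ k)⁻¹ * ‖(l.map (fun s => z - s)).prod‖)
      = (‖f z0‖ * ((2 * R) ^ k)⁻¹ * (M ^ 2)⁻¹) * ‖(l.map (fun s => z - s)).prod‖ := by ring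
    _ ≤ ‖g z‖ * ‖(l.map (fun s => z - s)).prod‖ := mul_le_mul_of_nonneg_right h4 (norm_nonneg _)

/-! ### the lower bound to the right, without epsilon -/

open Pool.Agent.W169.HF H353.E Pool.Agent.W355.UN Pool.Agent.TH839.NA in
theorem ctr0 [L : Y23.G.LFun] : ∃ σ : ℝ, 2 ≤ σ ∧ ∃ c : ℝ, 0 < c ∧ ∀ t : ℝ,
    c * Real.exp (-(L.m * Real.pi / 4 * |t|)) ≤ ‖L.X (1 / 2 + σ + t * Complex.I)‖ := by
  obtain ⟨σ, hσ, hL⟩ := lser_low (L := L)
  refine ⟨σ, hσ, ?_⟩
  have hg := fun j => gamR_low (L.a j) (L.str j) hσ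
  choose g hg0 hg1 using hg
  have hN1 := L.raw.hN
  have hN0 : 0 < L.N := by linarith
  refine ⟨L.N ^ ((1 / 2 + σ) / 2) * (∏ j, g j) * (1 / 2), by
    have : 0 < ∏ j, g j := Finset.prod_pos fun j _ => hg0 j
    positivity, fun t => ?_⟩
  set s : ℂ := 1 / 2 + σ + t * I with hs
  have hsre : s.re = 1 / 2 + σ := by rw [hs]; simp
  rw [show L.X s = gaf L.N (fun j => -L.a j) s * ((s * (s - 1)) ^ L.r * LSeries L.b s) from
    L.raw.eq' (by rw [hsre]; linarith), gaf_eq, norm_mul, norm_mul, norm_mul, norm_prod]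
  have h1 : ‖(L.N : ℂ) ^ (s / 2)‖ = L.N ^ ((1 / 2 + σ) / 2) := by
    rw [Complex.norm_cpow_eq_rpow_re_of_pos hN0]
    congr 1
    rw [show (2 : ℂ) = ((2 : ℝ) : ℂ) by norm_num, Complex.div_ofReal_re, hsre]
  have h2 : (∏ j, g j) * Real.exp (-(L.m * Real.pi / 4 * |t|)) ≤ ∏ j, ‖Gammaℝ (s + L.a j)‖ := by
    have e : (∏ j, g j) * Real.exp (-(L.m * Real.pi / 4 * |t|)) = ∏ j, (g j * Real.exp (-(Real.pi / 4 * |t|))) := by
      rw [Finset.prod_mul_distrib, Finset.prod_const, Finset.card_univ, Fintype.card_fin, ← Real.exp_nat_mul]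
      congr 2
      ring
    rw [e]
    refine Finset.prod_le_prod (fun j _ => ?_) fun j _ => hg1 j t
    exact (mul_pos (hg0 j) (Real.exp_pos _)).le
  have h3 : 1 ≤ ‖(s * (s - 1)) ^ L.r‖ := by
    rw [norm_pow]
    refine one_le_pow₀ ?_
    rw [norm_mul]
    have h4 : 1 ≤ ‖s‖ := by
      have := Complex.re_le_norm s
      linarith
    have h5 : 1 ≤ ‖s - 1‖ := by
      have := Complex.re_le_norm (s - 1)
      rw [Complex.sub_re, Complex.one_re] at this
      linarith
    nlinarith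
  have h4 := hL s hsre
  have h5 : 1 * (1 / 2) ≤ ‖(s * (s - 1)) ^ L.r‖ * ‖LSeries L.b s‖ :=
    mul_le_mul h3 h4 (by norm_num) (norm_nonneg _)
  have hP : 0 ≤ ∏ j, g j := Finset.prod_nonneg fun j _ => (hg0 j).le
  rw [h1]
  calc L.N ^ ((1 / 2 + σ) / 2) * (∏ j, g j) * (1 / 2) * Real.exp (-(L.m * Real.pi / 4 * |t|))
      = L.N ^ ((1 / 2 + σ) / 2) * ((∏ j, g j) * Real.exp (-(L.m * Real.pi / 4 * |t|))) * (1 * (1 / 2)) := by ring
    _ ≤ L.N ^ ((1 / 2 + σ) / 2) * (∏ j, ‖Gammaℝ (s + L.a j)‖) * (‖(s * (s - 1)) ^ L.r‖ * ‖LSeries L.b s‖) := by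
        refine mul_le_mul (mul_le_mul_of_nonneg_left h2 (by positivity)) h5 (by norm_num) (by positivity)

/-! ### the upper bound -/

/-- the upper bound in a ball, with the rotation `π / 2 - 1 / (1 + Y)` -/
lemma up_ball (hrot : S_RotU) [L : Y23.G.LFun] {T : ℝ} (hT : 1 ≤ T) : ∃ E : ℝ, 0 ≤ E ∧ ∀ (γ : ℝ) (w : ℂ),
    |w.re| ≤ T → |γ| - T ≤ |w.im| → ‖L.X (1 / 2 + w)‖ ≤ Real.exp (E * Lg γ - L.m * Real.pi / 4 * |γ|) := by
  obtain ⟨A, hA, hrot1⟩ := hrot (L := L)
  have hm0 : (0 : ℝ) ≤ L.m := Nat.cast_nonneg _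
  obtain ⟨E0, hE0, hEk⟩ := Ek_bdd (m := L.m) (k := Y23.G.kp (L := L)) (A := A) (T := T) hm0 hA hT
  have hpi := Real.pi_pos
  refine ⟨E0 + 2 * (A + L.m / 2 * T) + L.m * Real.pi / 4 * T + L.m / 2, by positivity, ?_⟩
  intro γ w hre him
  set Y := |γ| with hY
  have hY0 : 0 ≤ Y := abs_nonneg _
  have hL1 := one_le_Lg γ
  set θ : ℝ := 1 / (1 + Y) with hθ
  have hθ0 : 0 < θ := by positivity
  have hθ1 : θ ≤ 1 := by rw [hθ, div_le_one (by positivity)]; linarith
  have hpi3 := Real.pi_gt_three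
  set φ : ℝ := Real.pi / 2 - θ with hφ
  have hφ0 : 0 ≤ φ := by rw [hφ]; linarith
  have hφ1 : φ < Real.pi / 2 := by rw [hφ]; linarith
  have hcos : 2 / Real.pi * θ ≤ Real.cos φ := by
    rw [hφ, Real.cos_pi_div_two_sub]
    exact Real.mul_le_sin hθ0.le (by linarith)
  have hcos0 : 0 < Real.cos φ := lt_of_lt_of_le (by positivity) hcos
  set q : ℝ := -Real.log (Real.cos φ) with hq
  have hq0 : 0 ≤ q := by
    rw [hq, neg_nonneg]
    exact Real.log_nonpos hcos0.le (Real.cos_le_one _)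
  have hq1 : q ≤ 2 * Lg γ := by
    have h1 : Real.log (2 / Real.pi * θ) ≤ Real.log (Real.cos φ) := Real.log_le_log (by positivity) hcos
    have h2 : Real.log (2 / Real.pi * θ) = -(Real.log (Real.pi / 2) + Real.log (1 + Y)) := by
      rw [Real.log_mul (by positivity) (by positivity), hθ, one_div, Real.log_inv, neg_add]
      congr 1
      rw [← Real.log_inv, inv_div]
    have h3 : Real.log (Real.pi / 2) ≤ 1 := by
      have h4 := Real.log_le_sub_one_of_pos (show 0 < Real.pi / 2 by positivity)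
      have h5 := Real.pi_le_four
      linarith
    have h4 : Real.log (1 + Y) ≤ Lg γ := by
      unfold Y23.G.Lg
      exact Real.log_le_log (by positivity) (by rw [← hY]; linarith)
    rw [hq]
    linarith
  have h1 := hrot1 φ hφ0 hφ1 w
  have hx0 := abs_nonneg w.re
  have h2 : Real.cos φ ^ (-A) = Real.exp (A * q) := by
    rw [Real.rpow_def_of_pos hcos0, hq]
    congr 1
    ring
  have h3 : Ek L.m (Y23.G.kp + Real.log (Real.cos φ)) A |w.re| ≤ E0 + L.m / 2 * T * q := by
    have e : Ek L.m (Y23.G.kp + Real.log (Real.cos φ)) A |w.re| =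
        Ek L.m (Y23.G.kp (L := L)) A |w.re| + L.m / 2 * |w.re| * q := by
      unfold Ek
      rw [hq]
      ring
    rw [e]
    have h4 := hEk _ hx0 hre
    have h5 : L.m / 2 * |w.re| * q ≤ L.m / 2 * T * q := by
      refine mul_le_mul_of_nonneg_right ?_ hq0
      exact mul_le_mul_of_nonneg_left hre (by positivity)
    linarith
  have h4 : Real.cos φ ^ (-A) * Real.exp (Ek L.m (Y23.G.kp + Real.log (Real.cos φ)) A |w.re|) / (1 + w.im ^ 2) ≤
      Real.exp (A * q + (E0 + L.m / 2 * T * q)) := by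
    refine (div_le_self (by positivity) (by nlinarith [sq_nonneg w.im])).trans ?_
    rw [h2, ← Real.exp_add]
    apply Real.exp_le_exp.mpr
    linarith
  have h5 : ‖L.X (1 / 2 + w)‖ ≤ Real.exp (A * q + (E0 + L.m / 2 * T * q) - L.m * φ / 2 * |w.im|) := by
    rw [Real.exp_sub, le_div_iff₀ (Real.exp_pos _)]
    exact h1.trans h4
  refine h5.trans (Real.exp_le_exp.mpr ?_)
  have h6 : φ * (Y - T) ≤ φ * |w.im| := mul_le_mul_of_nonneg_left him hφ0
  have h7 : Real.pi / 2 * Y - Real.pi / 2 * T - 1 ≤ φ * (Y - T) := by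
    have h8 : θ * Y ≤ 1 := by
      rw [hθ, one_div, inv_mul_le_iff₀ (by positivity)]
      linarith
    have h9 : 0 ≤ θ * T := by positivity
    have e : φ * (Y - T) = Real.pi / 2 * Y - Real.pi / 2 * T - θ * Y + θ * T := by rw [hφ]; ring
    rw [e]
    linarith
  have h8 : L.m / 2 * (Real.pi / 2 * Y - Real.pi / 2 * T - 1) ≤ L.m / 2 * (φ * |w.im|) :=
    mul_le_mul_of_nonneg_left (h7.trans h6) (by positivity)
  have h9 : (A + L.m / 2 * T) * q ≤ (A + L.m / 2 * T) * (2 * Lg γ) :=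
    mul_le_mul_of_nonneg_left hq1 (by positivity)
  have h10 : (E0 + L.m * Real.pi / 4 * T + L.m / 2) * 1 ≤ (E0 + L.m * Real.pi / 4 * T + L.m / 2) * Lg γ :=
    mul_le_mul_of_nonneg_left hL1 (by positivity)
  have e2 : L.m * φ / 2 * |w.im| = L.m / 2 * (φ * |w.im|) := by ring
  rw [e2]
  nlinarith [h8, h9, h10]

/-! ### the theorem -/

/-- **CIRU** (job EWU-CIR): circles with a lower bound -/
theorem cirU (hrot : S_RotU) : S_CirU := by
  intro L
  obtain ⟨σ, hσ, c, hc, hctr⟩ := ctr0 (L := L)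
  set R : ℝ := σ + 2 with hR
  have hR4 : 4 ≤ R := by rw [hR]; linarith
  have hR0 : 0 < R := by linarith
  obtain ⟨E, hE, hup1⟩ := up_ball hrot (L := L) (T := 5 * R) (by linarith)
  obtain ⟨C', hC', hcnt⟩ := disc_cnt (L := L) (r := 2 * R) (by positivity)
  have hl3R : 0 ≤ Real.log (3 * R) := Real.log_nonneg (by linarith)
  have hl16 : 0 ≤ Real.log 16 := Real.log_nonneg (by norm_num)
  set E1 : ℝ := E + |Real.log c| with hE1
  have hE10 : 0 ≤ E1 := by positivity
  set D : ℝ := 2 * Real.log (3 * R) + 2 * Real.log 16 + 2 with hD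
  have hD0 : 2 ≤ D := by rw [hD]; linarith
  have hD00 : 0 ≤ D := by linarith
  have hpi := Real.pi_pos
  refine ⟨1 + |Real.log c| + 2 * E1 + C' * D, by
    have : 0 ≤ C' * D := by positivity
    have := abs_nonneg (Real.log c)
    linarith, ?_⟩
  intro w0 hw0 hδ0
  set δ : ℝ := w0.re with hδ
  set γ : ℝ := w0.im with hγ
  have hδ1 : δ ≤ 1 := by
    by_contra h
    push Not at h
    refine X_ne (L := L) (s := 1 / 2 + w0) ?_ hw0
    have e : (1 / 2 + w0 : ℂ).re = 1 / 2 + w0.re := by simp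
    rw [e, ← hδ]
    linarith
  set Y := |γ| with hY
  have hY0 : 0 ≤ Y := abs_nonneg _
  have hL1 := one_le_Lg γ
  set Λ : ℝ := Real.log (1 / δ) with hΛ
  have hΛ0 : 0 ≤ Λ := Real.log_nonneg (by rw [le_div_iff₀ hδ0]; linarith)
  set z0 : ℂ := σ + γ * I with hz0
  have hz0re : z0.re = σ := by rw [hz0]; simp
  have hz0im : z0.im = γ := by rw [hz0]; simp
  have hlow0 : c * Real.exp (-(L.m * Real.pi / 4 * Y)) ≤ ‖L.X (1 / 2 + z0)‖ := by
    have h1 := hctr γ
    have e : (1 / 2 + σ + γ * I : ℂ) = 1 / 2 + z0 := by rw [hz0]; ring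
    rwa [e] at h1
  have hne : L.X (1 / 2 + z0) ≠ 0 := by
    rw [← norm_pos_iff]
    exact lt_of_lt_of_le (by positivity) hlow0
  have hlow1 : Real.exp (-|Real.log c| - L.m * Real.pi / 4 * Y) ≤ ‖L.X (1 / 2 + z0)‖ := by
    refine le_trans ?_ hlow0
    have e : c * Real.exp (-(L.m * Real.pi / 4 * Y)) = Real.exp (Real.log c - L.m * Real.pi / 4 * Y) := by
      rw [sub_eq_add_neg, Real.exp_add, Real.exp_log hc]
    rw [e]
    apply Real.exp_le_exp.mpr
    have := neg_abs_le (Real.log c)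
    linarith
  set M : ℝ := Real.exp (E1 * Lg γ) with hM
  have hM1 : 1 ≤ M := Real.one_le_exp (by positivity)
  have hup : ∀ w, ‖w - z0‖ ≤ 4 * R → ‖L.X (1 / 2 + w)‖ ≤ M * ‖L.X (1 / 2 + z0)‖ := by
    intro w hw
    have hre : |w.re| ≤ 5 * R := by
      have h2 := (Complex.abs_re_le_norm (w - z0)).trans hw
      rw [Complex.sub_re, hz0re] at h2
      have h3 := abs_le.mp h2
      rw [abs_le]
      constructor <;> linarith
    have him : |γ| - 5 * R ≤ |w.im| := by
      have h2 := (Complex.abs_im_le_norm (w - z0)).trans hw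
      rw [Complex.sub_im, hz0im] at h2
      have h3 : |γ| ≤ |w.im| + |w.im - γ| := by
        have := abs_sub_abs_le_abs_sub γ w.im
        rw [abs_sub_comm] at this
        linarith
      linarith
    refine (hup1 γ w hre him).trans ?_
    refine le_trans ?_ (mul_le_mul_of_nonneg_left hlow1 (Real.exp_pos _).le)
    rw [hM, ← Real.exp_add]
    apply Real.exp_le_exp.mpr
    have h4 : |Real.log c| * 1 ≤ |Real.log c| * Lg γ := mul_le_mul_of_nonneg_left hL1 (abs_nonneg _)
    rw [hE1]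
    linarith
  set n : ℕ := ⌊C' * Lg z0.im⌋₊ with hn
  obtain ⟨l, hln, hl2, hlmem, hlow⟩ := minP (f := fun w => L.X (1 / 2 + w)) (z0 := z0) (R := R) (M := M)
    (n := n) (by
      have := Xd (L := L)
      fun_prop) hR0 hM1 hne hup (by
      intro S hS
      rw [hn]
      exact Nat.le_floor (hcnt z0 S hS))
  have hkn : (l.length : ℝ) ≤ C' * Lg γ := by
    have h1 : (l.length : ℝ) ≤ n := by exact_mod_cast hln
    refine h1.trans ?_
    rw [hn, hz0im]
    exact Nat.floor_le (by positivity)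
  set p : ℂ := -(starRingEnd ℂ) w0 with hp
  obtain ⟨r, hr1, hr2, hr3⟩ := real_prod_list l (fun b => ‖b - w0‖) (fun b => ‖b - p‖) (δ / 4)
    (by positivity)
  have hr2' : r ≤ δ / 2 := by linarith
  have hr0 : 0 < r := by linarith
  -- distances of the centres
  have hd1 : ‖w0 - z0‖ ≤ σ + 1 := by
    have e : w0 - z0 = ((δ - σ : ℝ) : ℂ) := by
      apply Complex.ext
      · rw [Complex.sub_re, hz0re, Complex.ofReal_re]
      · rw [Complex.sub_im, hz0im, Complex.ofReal_im]
        simp [hγ]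
    rw [e, Complex.norm_real, Real.norm_eq_abs, abs_le]
    constructor <;> linarith
  have hd2 : ‖p - z0‖ ≤ σ + 1 := by
    have e : p - z0 = ((-δ - σ : ℝ) : ℂ) := by
      apply Complex.ext
      · rw [Complex.sub_re, hz0re, Complex.ofReal_re, hp]
        simp [hδ]
      · rw [Complex.sub_im, hz0im, Complex.ofReal_im, hp]
        simp [hγ]
    rw [e, Complex.norm_real, Real.norm_eq_abs, abs_le]
    constructor <;> linarith
  have hd1' : ‖w0 - z0‖ ≤ σ := by
    have e : w0 - z0 = ((δ - σ : ℝ) : ℂ) := by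
      apply Complex.ext
      · rw [Complex.sub_re, hz0re, Complex.ofReal_re]
      · rw [Complex.sub_im, hz0im, Complex.ofReal_im]
        simp [hγ]
    rw [e, Complex.norm_real, Real.norm_eq_abs, abs_le]
    constructor <;> linarith
  -- bounds of the factors
  have hfac : ∀ u : ℂ, ‖u - z0‖ ≤ σ + 1 → ∀ b ∈ l, 0 ≤ |r - ‖b - u‖| ∧ |r - ‖b - u‖| ≤ 3 * R := by
    intro u hu b hb
    refine ⟨abs_nonneg _, ?_⟩
    have h1 : ‖b - u‖ ≤ 3 * R := by
      have h2 : ‖b - u‖ ≤ ‖b - z0‖ + ‖u - z0‖ := by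
        have e : b - u = (b - z0) - (u - z0) := by ring
        rw [e]
        exact norm_sub_le _ _
      have h3 := hl2 b hb
      linarith
    have h2 := norm_nonneg (b - u)
    rw [abs_le]
    constructor <;> linarith
  set k := l.length with hk
  set P1 : ℝ := (l.map fun b => |r - ‖b - w0‖|).prod with hP1
  set P2 : ℝ := (l.map fun b => |r - ‖b - p‖|).prod with hP2
  have hP10 : 0 ≤ P1 := lprod_nonneg l _ fun b hb => (hfac w0 hd1 b hb).1
  have hP20 : 0 ≤ P2 := lprod_nonneg l _ fun b hb => (hfac p hd2 b hb).1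
  have hP11 : P1 ≤ (3 * R) ^ k := lprod_le l _ (hfac w0 hd1)
  have hP21 : P2 ≤ (3 * R) ^ k := lprod_le l _ (hfac p hd2)
  have h3R : 0 < 3 * R := by positivity
  have h3Rk : 0 < (3 * R) ^ k := by positivity
  -- the small number
  set κ : ℝ := (δ / 4 / 4) ^ (2 * k) * ((3 * R) ^ k)⁻¹ * ((3 * R) ^ k)⁻¹ with hκ
  have hκ0 : 0 ≤ κ := by positivity
  have hκ1 : κ ≤ P1 * ((3 * R) ^ k)⁻¹ := by
    rw [hκ]
    refine mul_le_mul_of_nonneg_right ?_ (by positivity)
    rw [← div_eq_mul_inv, div_le_iff₀ h3Rk]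
    exact hr3.trans (mul_le_mul_of_nonneg_left hP21 hP10)
  have hκ2 : κ ≤ P2 * ((3 * R) ^ k)⁻¹ := by
    rw [hκ]
    refine mul_le_mul_of_nonneg_right ?_ (by positivity)
    rw [← div_eq_mul_inv, div_le_iff₀ h3Rk]
    refine hr3.trans ?_
    rw [mul_comm]
    exact mul_le_mul_of_nonneg_left hP11 hP20
  have hκe : Real.exp (-(C' * D * Lg γ * (1 + Λ))) ≤ κ := by
    have e1 : δ / 4 / 4 = Real.exp (-(Real.log 16 + Λ)) := by
      rw [hΛ, one_div, Real.log_inv, neg_add, neg_neg, Real.exp_add, Real.exp_neg, Real.exp_log (by norm_num),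
        Real.exp_log hδ0]
      ring
    have e2 : (3 * R) ^ k = Real.exp (k * Real.log (3 * R)) := by
      rw [Real.exp_nat_mul, Real.exp_log h3R]
    have e3 : κ = Real.exp (-(k * (2 * Real.log (3 * R) + 2 * Real.log 16 + 2 * Λ))) := by
      rw [hκ, e1, ← Real.exp_nat_mul, e2, ← Real.exp_neg, ← Real.exp_add, ← Real.exp_add]
      congr 1
      push_cast
      ring
    rw [e3]
    apply Real.exp_le_exp.mpr
    apply neg_le_neg
    have h1 : 2 * Real.log (3 * R) + 2 * Real.log 16 + 2 * Λ ≤ D * (1 + Λ) := by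
      have h2 : 2 * Λ ≤ D * Λ := mul_le_mul_of_nonneg_right hD0 hΛ0
      have h3 : 2 * Real.log (3 * R) + 2 * Real.log 16 ≤ D := by rw [hD]; linarith
      have e4 : D * (1 + Λ) = D + D * Λ := by ring
      rw [e4]
      linarith
    calc (k : ℝ) * (2 * Real.log (3 * R) + 2 * Real.log 16 + 2 * Λ) ≤ (C' * Lg γ) * (D * (1 + Λ)) :=
          mul_le_mul hkn h1 (by positivity) (by positivity)
      _ = C' * D * Lg γ * (1 + Λ) := by ring
  have hLΛ : 1 ≤ Lg γ * (1 + Λ) := by nlinarith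
  have hCe : ∀ B : ℝ, 0 ≤ B → B ≤ B * (Lg γ * (1 + Λ)) := fun B hB => le_mul_of_one_le_right hB hLΛ
  have hE2 : 0 ≤ 1 + |Real.log c| + 2 * E1 := by positivity
  refine ⟨r, hr1, hr2', ?_, ?_⟩
  · -- the zeros
    intro w hw
    rw [abs_sub_comm]
    rcases le_or_gt ‖w - w0‖ 1 with h1 | h1
    · have hwl : w ∈ l := by
        apply hlmem w _ hw
        have e : w - z0 = (w - w0) + (w0 - z0) := by ring
        rw [e]
        refine (norm_add_le _ _).trans ?_
        linarith
      have h2 := lprod_le_factor l (fun b => |r - ‖b - w0‖|) (T := 3 * R) (by linarith) (hfac w0 hd1) hwl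
      have h3 : κ ≤ |r - ‖w - w0‖| := by
        refine hκ1.trans ?_
        rw [← div_eq_mul_inv, div_le_iff₀ h3Rk]
        exact h2
      refine le_trans ?_ (hκe.trans h3)
      apply Real.exp_le_exp.mpr
      apply neg_le_neg
      have h4 : C' * D ≤ 1 + |Real.log c| + 2 * E1 + C' * D := by linarith
      calc C' * D * Lg γ * (1 + Λ) = (C' * D) * (Lg γ * (1 + Λ)) := by ring
        _ ≤ (1 + |Real.log c| + 2 * E1 + C' * D) * (Lg γ * (1 + Λ)) :=
            mul_le_mul_of_nonneg_right h4 (by linarith)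
        _ = (1 + |Real.log c| + 2 * E1 + C' * D) * Lg γ * (1 + Λ) := by ring
    · have h2 : Real.exp (-((1 + |Real.log c| + 2 * E1 + C' * D) * Lg γ * (1 + Λ))) ≤ Real.exp (-1) := by
        apply Real.exp_le_exp.mpr
        apply neg_le_neg
        have h3 : 1 ≤ 1 + |Real.log c| + 2 * E1 + C' * D := by
          have : 0 ≤ C' * D := by positivity
          have := abs_nonneg (Real.log c)
          linarith
        rw [mul_assoc]
        nlinarith
      have h3 : Real.exp (-1) ≤ 1 / 2 := by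
        rw [Real.exp_neg, one_div]
        apply inv_anti₀ (by norm_num)
        have := Real.add_one_le_exp (1 : ℝ)
        linarith
      have h4 : 1 / 2 ≤ |r - ‖w - w0‖| := by
        rw [abs_sub_comm]
        refine le_trans ?_ (le_abs_self _)
        linarith
      exact h2.trans (h3.trans h4)
  · -- the circles
    have key : ∀ u : ℂ, ‖u - z0‖ ≤ σ + 1 → κ ≤ (l.map fun b => |r - ‖b - u‖|).prod * ((3 * R) ^ k)⁻¹ →
        ∀ z : ℂ, ‖z - u‖ = r →
        Real.exp (-(L.m * Real.pi / 4 * Y) - (1 + |Real.log c| + 2 * E1 + C' * D) * Lg γ * (1 + Λ)) ≤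
          ‖L.X (1 / 2 + z)‖ := by
      intro u hu hκu z hz
      have hzz : ‖z - z0‖ ≤ R := by
        have e : z - z0 = (z - u) + (u - z0) := by ring
        rw [e]
        refine (norm_add_le _ _).trans ?_
        rw [hz]
        linarith
      have h1 := hlow z hzz
      refine le_trans ?_ h1
      have h2 : (l.map fun b => |r - ‖b - u‖|).prod ≤ ‖(l.map (fun s => z - s)).prod‖ := by
        refine lprod_le_norm l _ z fun b hb => ⟨abs_nonneg _, ?_⟩
        rw [← hz]
        have h3 := abs_norm_sub_norm_le (z - u) (b - u)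
        have e : z - u - (b - u) = z - b := by ring
        rwa [e] at h3
      have h3 : κ ≤ ((2 * R) ^ k)⁻¹ * ‖(l.map (fun s => z - s)).prod‖ := by
        refine hκu.trans ?_
        rw [mul_comm]
        refine mul_le_mul ?_ h2 (lprod_nonneg l _ fun b hb => abs_nonneg _) (by positivity)
        apply inv_anti₀ (by positivity)
        exact pow_le_pow_left₀ (by positivity) (by linarith) _
      have h4 : Real.exp (-|Real.log c| - L.m * Real.pi / 4 * Y) * (M ^ 2)⁻¹ *
          Real.exp (-(C' * D * Lg γ * (1 + Λ))) ≤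
          ‖L.X (1 / 2 + z0)‖ * (M ^ 2)⁻¹ * (((2 * R) ^ k)⁻¹ * ‖(l.map (fun s => z - s)).prod‖) := by
        refine mul_le_mul (mul_le_mul_of_nonneg_right hlow1 (by positivity)) (hκe.trans h3)
          (Real.exp_pos _).le (by positivity)
      refine le_trans ?_ h4
      have e2 : (M ^ 2)⁻¹ = Real.exp (-(2 * (E1 * Lg γ))) := by
        rw [hM, ← Real.exp_nat_mul, ← Real.exp_neg]
        congr 1
      rw [e2, ← Real.exp_add, ← Real.exp_add]
      apply Real.exp_le_exp.mpr
      have h5 := hCe (|Real.log c|) (abs_nonneg _)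
      have h6 : 2 * (E1 * Lg γ) ≤ 2 * E1 * (Lg γ * (1 + Λ)) := by
        have h7 : Lg γ ≤ Lg γ * (1 + Λ) := le_mul_of_one_le_right (by linarith) (by linarith)
        have h8 : 2 * E1 * Lg γ ≤ 2 * E1 * (Lg γ * (1 + Λ)) := mul_le_mul_of_nonneg_left h7 (by positivity)
        linarith
      have e3 : (1 + |Real.log c| + 2 * E1 + C' * D) * Lg γ * (1 + Λ) =
          Lg γ * (1 + Λ) + |Real.log c| * (Lg γ * (1 + Λ)) + 2 * E1 * (Lg γ * (1 + Λ)) +
            C' * D * Lg γ * (1 + Λ) := by ring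
      rw [e3]
      linarith
    intro z hz
    rcases hz with hz | hz
    · exact key w0 hd1 hκ1 z hz
    · exact key p hd2 hκ2 z hz

end Pool.Agent.Q166.EW
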