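import Pool.Agent.Q286.EW.Stm

/-! # Project EWC, job EW-MIN: minimum modulus lemma -/

set_option autoImplicit false

open Filter Topology Finset

namespace Pool.Agent.Q166.EW

open Pool.Agent.Q286.EW

/-- the nonvanishing case -/
lemma min_nz {g : ℂ → ℂ} {z0 z : ℂ} {R M : ℝ} (hR : 0 < R) (hM : 1 ≤ M)
    (hg : Differentiable ℂ g) (hnz : ∀ w, ‖w - z0‖ ≤ 2 * R → g w ≠ 0)
    (hb : ∀ w, ‖w - z0‖ ≤ 2 * R → ‖g w‖ ≤ M * ‖g z0‖) (hz : ‖z - z0‖ ≤ R) :
    ‖g z0‖ * (M ^ 2)⁻¹ ≤ ‖g z‖ := by
  have hz0 : g z0 ≠ 0 := hnz z0 (by simp; positivity)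
  have hM0 : 0 < M := by linarith
  have hex : Complex.IsExactOn (fun w => deriv g w / g w) (Metric.ball z0 (2 * R)) := by
    refine DifferentiableOn.isExactOn_ball ?_
    intro w hw
    have hw' : ‖w - z0‖ ≤ 2 * R := by
      have := Metric.mem_ball.mp hw
      rw [dist_eq_norm] at this
      exact this.le
    exact (((hg.deriv) w).div (hg w) (hnz w hw')).differentiableWithinAt
  obtain ⟨F, hF0, hF⟩ := hex.with_val_at z0 0
  have hconst : ∀ w ∈ Metric.ball z0 (2 * R), g w * Complex.exp (-F w) = g z0 * Complex.exp (-F z0) := by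
    intro w hw
    have hd : ∀ x ∈ Metric.ball z0 (2 * R), HasDerivAt (fun y => g y * Complex.exp (-F y)) 0 x := by
      intro x hx
      have hx' : ‖x - z0‖ ≤ 2 * R := by
        have := Metric.mem_ball.mp hx
        rw [dist_eq_norm] at this
        exact this.le
      have h1 : HasDerivAt (fun y => g y * Complex.exp (-F y))
          (deriv g x * Complex.exp (-F x) + g x * (Complex.exp (-F x) * -(deriv g x / g x))) x :=
        (hg x).hasDerivAt.mul ((hF x hx).neg.cexp)
      have e : deriv g x * Complex.exp (-F x) + g x * (Complex.exp (-F x) * -(deriv g x / g x)) = 0 := by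
        have := hnz x hx'
        field_simp
        ring
      rwa [e] at h1
    have hz0m : z0 ∈ Metric.ball z0 (2 * R) := Metric.mem_ball_self (by positivity)
    refine (Metric.isOpen_ball).is_const_of_deriv_eq_zero (convex_ball z0 (2 * R)).isPreconnected
      (fun x hx => (hd x hx).differentiableAt.differentiableWithinAt) (fun x hx => (hd x hx).deriv) hw hz0m
  have hgF : ∀ w ∈ Metric.ball z0 (2 * R), ‖g w‖ = ‖g z0‖ * Real.exp (F w).re := by
    intro w hw
    have h1 := hconst w hw
    rw [hF0, neg_zero, Complex.exp_zero, mul_one, Complex.exp_neg] at h1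
    have h2 : g w = g z0 * Complex.exp (F w) := by
      rw [← h1]
      field_simp
    rw [h2, norm_mul, Complex.norm_exp]
  have hre : ∀ w ∈ Metric.ball z0 (2 * R), (F w).re ≤ Real.log M := by
    intro w hw
    have hw' : ‖w - z0‖ ≤ 2 * R := by
      have := Metric.mem_ball.mp hw
      rw [dist_eq_norm] at this
      exact this.le
    have h1 := hb w hw'
    rw [hgF w hw] at h1
    have h2 : 0 < ‖g z0‖ := norm_pos_iff.mpr hz0
    have h3 : Real.exp (F w).re ≤ M := by
      have : ‖g z0‖ * Real.exp (F w).re ≤ ‖g z0‖ * M := by linarith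
      exact le_of_mul_le_mul_left this h2
    rw [← Real.log_exp (F w).re]
    exact Real.log_le_log (Real.exp_pos _) h3
  have hlog : 0 ≤ Real.log M := Real.log_nonneg hM
  have hkey : ∀ δ : ℝ, 0 < δ → ‖F z‖ ≤ 2 * (Real.log M + δ) := by
    intro δ hδ
    have hm : ∀ w : ℂ, w ∈ Metric.ball (0 : ℂ) (2 * R) → z0 + w ∈ Metric.ball z0 (2 * R) := by
      intro w hw
      rw [Metric.mem_ball, dist_eq_norm] at hw ⊢
      simpa using hw
    have h1 := Complex.borelCaratheodory_zero (f := fun w => F (z0 + w)) (M := Real.log M + δ) (R := 2 * R)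
      (z := z - z0) (by linarith) ?_ ?_ (by positivity) ?_ (by simpa using hF0)
    · simp only [add_sub_cancel] at h1
      refine h1.trans ?_
      rw [div_le_iff₀ (by linarith)]
      have h4 : 0 ≤ ‖z - z0‖ := norm_nonneg _
      nlinarith
    · intro w hw
      have h2 : DifferentiableAt ℂ F (z0 + w) := (hF _ (hm w hw)).differentiableAt
      have h3 : DifferentiableAt ℂ (fun w : ℂ => z0 + w) w := by fun_prop
      exact (DifferentiableAt.comp w h2 h3).differentiableWithinAt
    · intro w hw
      have := hre _ (hm w hw)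
      show (F (z0 + w)).re ≤ Real.log M + δ
      linarith
    · rw [Metric.mem_ball, dist_zero_right]
      linarith
  have hFz : ‖F z‖ ≤ 2 * Real.log M := by
    refine le_of_forall_pos_le_add fun δ hδ => ?_
    have := hkey (δ / 2) (by positivity)
    linarith
  have hzm : z ∈ Metric.ball z0 (2 * R) := by
    rw [Metric.mem_ball, dist_eq_norm]
    linarith
  rw [hgF z hzm]
  refine mul_le_mul_of_nonneg_left ?_ (norm_nonneg _)
  have h5 : -(2 * Real.log M) ≤ (F z).re := by
    have := (abs_le.mp (Complex.abs_re_le_norm (F z))).1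
    linarith
  have e : (M ^ 2)⁻¹ = Real.exp (-(2 * Real.log M)) := by
    rw [Real.exp_neg, mul_comm, Real.exp_mul, Real.exp_log hM0]
    norm_num
  rw [e]
  exact Real.exp_le_exp.mpr h5

/-- the order of a zero is finite and positive -/
lemma ord_pos {f : ℂ → ℂ} (hf : Differentiable ℂ f) {z0 : ℂ} (h0 : f z0 ≠ 0) (w : ℂ) :
    analyticOrderAt f w ≠ ⊤ := by
  intro h
  rw [analyticOrderAt_eq_top] at h
  have h1 : AnalyticOnNhd ℂ f Set.univ := fun x _ => hf.analyticAt x
  have h2 := h1.eqOn_zero_of_preconnected_of_eventuallyEq_zero isPreconnected_univ (Set.mem_univ w) h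
  exact h0 (h2 (Set.mem_univ z0))

lemma ord_ge_one {f : ℂ → ℂ} (hf : Differentiable ℂ f) {z0 : ℂ} (h0 : f z0 ≠ 0) {w : ℂ} (hw : f w = 0) :
    1 ≤ analyticOrderNatAt f w := by
  have h1 : analyticOrderAt f w ≠ 0 := (hf.analyticAt w).analyticOrderAt_ne_zero.mpr hw
  rw [← Nat.cast_analyticOrderNatAt (ord_pos hf h0 w)] at h1
  have : analyticOrderNatAt f w ≠ 0 := by
    intro h
    rw [h] at h1
    simp at h1
  omega

/-- division by the zeros in a ball -/
lemma fac (z0 : ℂ) (r : ℝ) : ∀ (n : ℕ) (f : ℂ → ℂ), Differentiable ℂ f → f z0 ≠ 0 →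
    (∀ S : Finset ℂ, (∀ s ∈ S, f s = 0 ∧ ‖s - z0‖ ≤ r) → ∑ s ∈ S, analyticOrderNatAt f s ≤ n) →
    ∃ (l : List ℂ) (g : ℂ → ℂ), l.length ≤ n ∧ Differentiable ℂ g ∧
      (∀ w, f w = g w * (l.map (fun s => w - s)).prod) ∧ (∀ s ∈ l, f s = 0 ∧ ‖s - z0‖ ≤ r) ∧
      (∀ w, ‖w - z0‖ ≤ r → g w ≠ 0) := by
  intro n
  induction n with
  | zero =>
    intro f hf h0 hS
    refine ⟨[], f, le_refl _, hf, by simp, by simp, ?_⟩
    intro w hw hw0
    have h1 := hS {w} (by simp [hw, hw0])
    have h2 := ord_ge_one hf h0 hw0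
    rw [Finset.sum_singleton] at h1
    omega
  | succ n ih =>
    intro f hf h0 hS
    by_cases hz : ∀ w, ‖w - z0‖ ≤ r → f w ≠ 0
    · exact ⟨[], f, by simp, hf, by simp, by simp, hz⟩
    · push Not at hz
      obtain ⟨s, hs, hfs⟩ := hz
      have hdf : Differentiable ℂ (dslope f s) := by
        rw [← differentiableOn_univ] at hf ⊢
        exact (Complex.differentiableOn_dslope (by simp)).mpr hf
      have hmul : ∀ w, f w = (w - s) * dslope f s w := by
        intro w
        have := sub_smul_dslope f s w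
        rw [smul_eq_mul, hfs, sub_zero] at this
        exact this.symm
      have h01 : dslope f s z0 ≠ 0 := by
        intro h
        apply h0
        rw [hmul z0, h, mul_zero]
      have hord : ∀ w, analyticOrderNatAt f w = analyticOrderNatAt (fun w => w - s) w +
          analyticOrderNatAt (dslope f s) w := by
        intro w
        have e : f = (fun w => w - s) * dslope f s := by
          funext w
          exact hmul w
        have hs1 : analyticOrderAt (fun w : ℂ => w - s) w ≠ ⊤ := by
          refine ord_pos (by fun_prop) (z0 := s + 1) (by simp) w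
        conv_lhs => rw [e]
        exact analyticOrderNatAt_mul (by fun_prop) (hdf.analyticAt w) hs1 (ord_pos hdf h01 w)
      obtain ⟨l, g, hl, hg, hfg, hl0, hgnz⟩ := ih (dslope f s) hdf h01 (by
        intro S hSS
        classical
        have h1 := hS (insert s S) (by
          intro t ht
          rw [Finset.mem_insert] at ht
          rcases ht with rfl | ht
          · exact ⟨hfs, hs⟩
          · refine ⟨?_, (hSS t ht).2⟩
            rw [hmul t, (hSS t ht).1, mul_zero])
        have h2 : ∑ t ∈ insert s S, analyticOrderNatAt f t =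
            ∑ t ∈ insert s S, analyticOrderNatAt (fun w => w - s) t +
              ∑ t ∈ insert s S, analyticOrderNatAt (dslope f s) t := by
          rw [← Finset.sum_add_distrib]
          exact Finset.sum_congr rfl fun t _ => hord t
        have h3 : 1 ≤ ∑ t ∈ insert s S, analyticOrderNatAt (fun w => w - s) t := by
          have h4 : analyticOrderNatAt (fun w : ℂ => w - s) s ≤
              ∑ t ∈ insert s S, analyticOrderNatAt (fun w => w - s) t :=
            Finset.single_le_sum (f := fun t => analyticOrderNatAt (fun w : ℂ => w - s) t)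
              (fun _ _ => Nat.zero_le _) (Finset.mem_insert_self s S)
          have h5 : analyticOrderNatAt (fun w : ℂ => w - s) s = 1 := by
            simp [analyticOrderNatAt]
          omega
        have h6 : ∑ t ∈ S, analyticOrderNatAt (dslope f s) t ≤
            ∑ t ∈ insert s S, analyticOrderNatAt (dslope f s) t :=
          Finset.sum_le_sum_of_subset (Finset.subset_insert s S)
        omega)
      refine ⟨s :: l, g, by simpa using hl, hg, ?_, ?_, hgnz⟩
      · intro w
        rw [hmul w, hfg w]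
        simp only [List.map_cons, List.prod_cons]
        ring
      · intro t ht
        rw [List.mem_cons] at ht
        rcases ht with rfl | ht
        · exact ⟨hfs, hs⟩
        · refine ⟨?_, (hl0 t ht).2⟩
          rw [hmul t, (hl0 t ht).1, mul_zero]

lemma prod_ge {x : ℝ} (hx : 0 ≤ x) (w : ℂ) : ∀ l : List ℂ, (∀ s ∈ l, x ≤ ‖w - s‖) →
    x ^ l.length ≤ ‖(l.map (fun s => w - s)).prod‖ := by
  intro l
  induction l with
  | nil => intro _; simp
  | cons a l ih =>
    intro h
    simp only [List.length_cons, List.map_cons, List.prod_cons, norm_mul]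
    rw [pow_succ']
    exact mul_le_mul (h a (by simp)) (ih fun s hs => h s (by simp [hs])) (by positivity) (norm_nonneg _)

lemma prod_le {x : ℝ} (w : ℂ) : ∀ l : List ℂ, (∀ s ∈ l, ‖w - s‖ ≤ x) →
    ‖(l.map (fun s => w - s)).prod‖ ≤ x ^ l.length := by
  intro l
  induction l with
  | nil => intro _; simp
  | cons a l ih =>
    intro h
    have h1 := h a (by simp)
    have h0 : 0 ≤ x := (norm_nonneg _).trans h1
    simp only [List.length_cons, List.map_cons, List.prod_cons, norm_mul]
    rw [pow_succ']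
    exact mul_le_mul h1 (ih fun s hs => h s (by simp [hs])) (norm_nonneg _) h0

/-- **MIN** (job EW-MIN): minimum modulus -/
theorem min_ : S_Min := by
  intro f z0 z R M η n hf hR hM hη hηR h0 hub hS hz hzero
  obtain ⟨l, g, hl, hg, hfg, hl0, hgnz⟩ := fac z0 (2 * R) n f hf h0 hS
  set k := l.length with hk
  have h2R : 0 < 2 * R := by positivity
  -- bound on the sphere of radius `4 R`
  have hsph : ∀ w, ‖w - z0‖ = 4 * R → ‖g w‖ ≤ M * ‖f z0‖ * ((2 * R) ^ k)⁻¹ := by
    intro w hw
    have h1 : (2 * R) ^ k ≤ ‖(l.map (fun s => w - s)).prod‖ := by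
      refine prod_ge h2R.le w l fun s hs => ?_
      have h2 := (hl0 s hs).2
      have h3 : ‖w - z0‖ ≤ ‖w - s‖ + ‖s - z0‖ := by
        have e : w - z0 = (w - s) + (s - z0) := by ring
        rw [e]
        exact norm_add_le _ _
      linarith
    have h4 := hub w hw.le
    rw [hfg w, norm_mul] at h4
    have h5 : (0 : ℝ) < (2 * R) ^ k := by positivity
    rw [← div_eq_mul_inv, le_div_iff₀ h5]
    exact (mul_le_mul_of_nonneg_left h1 (norm_nonneg _)).trans h4
  have hball : ∀ w, ‖w - z0‖ ≤ 4 * R → ‖g w‖ ≤ M * ‖f z0‖ * ((2 * R) ^ k)⁻¹ := by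
    intro w hw
    refine Complex.norm_le_of_forall_mem_frontier_norm_le (U := Metric.ball z0 (4 * R)) Metric.isBounded_ball
      hg.diffContOnCl ?_ ?_
    · intro u hu
      rw [frontier_ball z0 (by positivity)] at hu
      have := mem_sphere_iff_norm.mp hu
      exact hsph u this
    · rw [closure_ball z0 (by positivity)]
      rwa [Metric.mem_closedBall, dist_eq_norm]
  have hg0 : ‖f z0‖ * ((2 * R) ^ k)⁻¹ ≤ ‖g z0‖ := by
    have h1 : ‖(l.map (fun s => z0 - s)).prod‖ ≤ (2 * R) ^ k := by
      refine prod_le z0 l fun s hs => ?_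
      rw [norm_sub_rev]
      exact (hl0 s hs).2
    have h5 : (0 : ℝ) < (2 * R) ^ k := by positivity
    rw [← div_eq_mul_inv, div_le_iff₀ h5]
    conv_lhs => rw [hfg z0, norm_mul]
    exact mul_le_mul_of_nonneg_left h1 (norm_nonneg _)
  have hM0 : 0 < M := by linarith
  have h1 := min_nz hR hM hg hgnz (fun w hw => (hball w (by linarith)).trans (by
    rw [mul_assoc]
    exact mul_le_mul_of_nonneg_left hg0 hM0.le)) hz
  have h2 : η ^ k ≤ ‖(l.map (fun s => z - s)).prod‖ :=
    prod_ge hη.le z l fun s hs => hzero s (hl0 s hs).1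
  have h3 : ‖f z0‖ * (M ^ 2)⁻¹ * (η / (2 * R)) ^ n ≤ ‖f z0‖ * (M ^ 2)⁻¹ * (η / (2 * R)) ^ k := by
    refine mul_le_mul_of_nonneg_left ?_ (by positivity)
    refine pow_le_pow_of_le_one (by positivity) ?_ hl
    rw [div_le_one h2R]
    linarith
  refine h3.trans ?_
  rw [hfg z, norm_mul]
  have h4 : ‖f z0‖ * ((2 * R) ^ k)⁻¹ * (M ^ 2)⁻¹ ≤ ‖g z‖ :=
    (mul_le_mul_of_nonneg_right hg0 (by positivity)).trans h1
  calc ‖f z0‖ * (M ^ 2)⁻¹ * (η / (2 * R)) ^ k = (‖f z0‖ * ((2 * R) ^ k)⁻¹ * (M ^ 2)⁻¹) * η ^ k := by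
        rw [div_pow]
        ring
    _ ≤ ‖g z‖ * ‖(l.map (fun s => z - s)).prod‖ :=
        mul_le_mul h4 h2 (by positivity) (norm_nonneg _)

end Pool.Agent.Q166.EW
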